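import Pool.Agent.Helper66.LV.Uni
import Pool.Agent.Helper56.LV.Uni

/-!
# MP_a499ba_nt, the imaginary twists: one bound for all sizes `V`, the unified theorem
-/

set_option autoImplicit false

namespace Pool.Agent.Helper66.LV

open MeasureTheory Filter Topology Pool.Agent.IT Pool.Agent.DR

/-- one bound for all sizes `V` -/
theorem uni {C1 C2 : ℝ} (h1 : ∀ t : ℝ, 10 ≤ |t| → DgW muc C1 t) (h2 : ∀ t : ℝ, 10 ≤ |t| → DgW lac C2 t)
    (hK1 : StmtKLL muc) (hK2 : StmtKLL lac) (ε : ℝ) (hε : 0 < ε) (hε4 : ε < 1 / 4) :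
    ∃ H0 : ℝ, ∀ H : ℝ, H0 ≤ H → ∀ U V : ℝ, 0 < V → V ≤ Real.exp (Real.log H ^ (1 / 2 - ε)) →
    ∃ A : Set ℝ, MeasurableSet A ∧ A ⊆ Set.Icc U (U + H) ∧
      ENNReal.ofReal ((1 - ε) * Real.exp (-(Real.posLog (V / Real.log (Real.log H) ^ (1 / 4 - ε))) ^ (2 + ε)) * H) ≤ volume A ∧
      ∀ t ∈ A, ∀ s : ℝ, |s - t| ≤ V → ExW muc (V / (1 + |s - t|)) s ∧ ExW lac (V / (1 + |s - t|)) s := by
  have hpi := Real.pi_pos
  have hpi3 := Real.pi_gt_three
  have hpi4 := Real.pi_lt_four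
  obtain ⟨Hs, hs⟩ := small h1 h2 hK1 hK2 ε hε hε4
  obtain ⟨V1, HV, kV⟩ := lvV (ε / 2) (by positivity) (by linarith)
  set C0 : ℝ := 8 * (3 + 2 * max |C1| |C2|) with hC0
  have t1 : Tendsto (fun H : ℝ => Real.log H) atTop atTop := Real.tendsto_log_atTop
  have t2 : Tendsto (fun H : ℝ => Real.log (Real.log H)) atTop atTop := t1.comp t1
  have t3 : Tendsto (fun H : ℝ => Real.log (Real.log (Real.log H))) atTop atTop := t1.comp t2
  obtain ⟨Kc, hKc⟩ : ∃ Kc : ℝ, Kc = (4 ^ (2 + ε / 2) + 1) / (2 * ε) ^ (2 + ε) := ⟨_, rfl⟩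
  have hKc0 : 0 < Kc := by rw [hKc]; positivity
  have c1 : ∀ᶠ H : ℝ in atTop, max (max V1 1) C0 ≤ Real.log (Real.log H) ^ (1 / 4 - ε / 2) :=
    ((tendsto_rpow_atTop (by linarith)).comp t2).eventually_ge_atTop _
  have c2 : ∀ᶠ H : ℝ in atTop, 4 ≤ Real.log H ^ (ε / 2) :=
    ((tendsto_rpow_atTop (by positivity)).comp t1).eventually_ge_atTop _
  have c3 : ∀ᶠ H : ℝ in atTop, 4 ≤ Real.log H ^ (3 * ε / 4) :=
    ((tendsto_rpow_atTop (by positivity)).comp t1).eventually_ge_atTop _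
  have c4 : ∀ᶠ H : ℝ in atTop, max 1 (Kc ^ (2 / ε)) ≤ (1 / 4 - ε / 2) * Real.log (Real.log (Real.log H)) :=
    (t3.const_mul_atTop (by linarith : 0 < 1 / 4 - ε / 2)).eventually_ge_atTop _
  have c5 : ∀ᶠ H : ℝ in atTop, 128 ≤ H ^ (1 / 4 : ℝ) := (tendsto_rpow_atTop (by norm_num)).eventually_ge_atTop _
  obtain ⟨H1, k1⟩ := Filter.eventually_atTop.1 ((c1.and (c2.and c3)).and ((c4.and c5).and ((t2.eventually_ge_atTop 1).and
    (eventually_ge_atTop (Real.exp (Real.exp 1))))))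
  refine ⟨max Hs (max HV H1), fun H hH U V hV0 hVH => ?_⟩
  have hHs : Hs ≤ H := (le_max_left _ _).trans hH
  have hHV : HV ≤ H := ((le_max_left _ _).trans (le_max_right _ _)).trans hH
  have hH1 : H1 ≤ H := ((le_max_right _ _).trans (le_max_right _ _)).trans hH
  obtain ⟨⟨d1, d2, d3⟩, ⟨d4, d5⟩, d6, d7⟩ := k1 H hH1
  have hHp : 0 < H := lt_of_lt_of_le (Real.exp_pos _) d7
  have hl1 : Real.exp 1 ≤ Real.log H := by
    rw [← Real.log_exp (Real.exp 1)]
    exact Real.log_le_log (Real.exp_pos _) d7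
  have hl0 : 1 ≤ Real.log H := by
    have := Real.add_one_le_exp (1 : ℝ)
    linarith
  have hH1' : 1 ≤ H := by
    have := Real.log_le_sub_one_of_pos hHp
    linarith
  set L := Real.log (Real.log H) with hL
  have hL0 : 0 < L := by linarith
  have hsH : 1 ≤ Real.sqrt H := by rw [Real.one_le_sqrt]; exact hH1'
  have hplog : 0 ≤ Real.posLog (V / L ^ (1 / 4 - ε)) := Real.posLog_nonneg
  rcases le_or_gt V (L ^ (1 / 4 - ε / 2)) with hcase | hcase
  · obtain ⟨A, a1, a2, a3, a4⟩ := hs H hHs U V hV0 hcase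
    refine ⟨A, a1, a2, (ENNReal.ofReal_le_ofReal ?_).trans a3, a4⟩
    have m7 : Real.exp (-(Real.posLog (V / L ^ (1 / 4 - ε))) ^ (2 + ε)) ≤ 1 := by
      have : 0 ≤ Real.posLog (V / L ^ (1 / 4 - ε)) ^ (2 + ε) := Real.rpow_nonneg hplog _
      exact Real.exp_le_one_iff.2 (by linarith)
    calc (1 - ε) * Real.exp (-(Real.posLog (V / L ^ (1 / 4 - ε))) ^ (2 + ε)) * H ≤ (1 - ε) * 1 * H := by
          apply mul_le_mul_of_nonneg_right _ hHp.le
          exact mul_le_mul_of_nonneg_left m7 (by linarith)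
      _ = (1 - ε) * H := by ring
  · have hX1 : 1 ≤ L ^ (1 / 4 - ε / 2) := ((le_max_right _ _).trans (le_max_left _ _)).trans d1
    have hV1 : 1 ≤ V := by linarith
    have hVV1 : V1 ≤ V := (((le_max_left _ _).trans (le_max_left _ _)).trans d1).trans hcase.le
    have hVC : C0 ≤ V := ((le_max_right _ _).trans d1).trans hcase.le
    set ℓ : ℝ := Real.log V with hℓ
    have hℓL : (1 / 4 - ε / 2) * Real.log L ≤ ℓ := by
      rw [← Real.log_rpow hL0]
      exact Real.log_le_log (by positivity) hcase.le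
    have hℓ1 : 1 ≤ ℓ := ((le_max_left _ _).trans d4).trans hℓL
    have hℓK : Kc ≤ ℓ ^ (ε / 2) := by
      have q1 : Kc ^ (2 / ε) ≤ ℓ := ((le_max_right _ _).trans d4).trans hℓL
      calc Kc = (Kc ^ (2 / ε)) ^ (ε / 2) := by
            rw [← Real.rpow_mul hKc0.le, show 2 / ε * (ε / 2) = 1 by field_simp, Real.rpow_one]
        _ ≤ ℓ ^ (ε / 2) := Real.rpow_le_rpow (by positivity) q1 (by positivity)
    have hℓH : ℓ ≤ Real.log H ^ (1 / 2 - ε) := by
      rw [hℓ, Real.log_le_iff_le_exp hV0]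
      exact hVH
    have hlogV4 : Real.log (V ^ 4) = 4 * ℓ := by
      rw [Real.log_pow, ← hℓ]
      norm_num
    have h4ℓ : 4 * ℓ ≤ Real.log H ^ (1 / 2 - ε / 2) := by
      calc 4 * ℓ ≤ Real.log H ^ (ε / 2) * Real.log H ^ (1 / 2 - ε) := mul_le_mul d2 hℓH (by linarith) (by positivity)
        _ = Real.log H ^ (1 / 2 - ε / 2) := by
            rw [← Real.rpow_add (by linarith)]
            congr 1
            ring
    have hV4 : V ^ 4 ≤ Real.exp (Real.log H ^ (1 / 2 - ε / 2)) := by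
      rw [← Real.log_le_iff_le_exp (by positivity), hlogV4]
      exact h4ℓ
    have hVV4 : V1 ≤ V ^ 4 := hVV1.trans (le_self_pow₀ hV1 (by norm_num))
    have m0 := kV H hHV (V ^ 4) hVV4 hV4 U
    rw [hlogV4] at m0
    set A : ℝ := (4 * ℓ) ^ (2 + ε / 2) with hA
    have hAH : A ≤ Real.log H / 4 := Pool.Agent.Helper56.LV.num_A hε hl0 (by linarith) h4ℓ d3
    have hAP : A + 1 ≤ Real.posLog (V / L ^ (1 / 4 - ε)) ^ (2 + ε) :=
      Pool.Agent.Helper56.LV.num_large hε hε4 d6 hV0 hℓL hℓ1 (by rw [← hKc]; exact hℓK)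
    have hnH := Pool.Agent.Helper56.LV.num_H hH1' hAH d5
    -- `V ≤ √H`
    have hVs : V ≤ Real.sqrt H := by
      have q1 : 4 * ℓ ≤ Real.log H := by
        refine h4ℓ.trans ?_
        calc Real.log H ^ (1 / 2 - ε / 2) ≤ Real.log H ^ (1 : ℝ) := Real.rpow_le_rpow_of_exponent_le hl0 (by linarith)
          _ = Real.log H := Real.rpow_one _
      have q2 : ℓ ≤ Real.log (Real.sqrt H) := by
        rw [Real.log_sqrt hHp.le]
        linarith
      rw [hℓ] at q2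
      exact (Real.log_le_log_iff hV0 (by positivity)).1 q2
    have hm0 : 0 ≤ (1 - ε) * Real.exp (-(Real.posLog (V / L ^ (1 / 4 - ε))) ^ (2 + ε)) * H :=
      mul_nonneg (mul_nonneg (by linarith) (Real.exp_pos _).le) hHp.le
    refine set_step h1 h2 hH1' hV1 hm0 ?_
    have hsub : {t : ℝ | U ≤ t ∧ t ≤ U + H ∧ (∃ n : ℕ, 1 ≤ n ∧ (n : ℝ) ≤ H ^ (1 / 8 : ℝ) ∧ V ^ 4 * Real.sqrt n < ‖Sw muc t n‖) ∧
        ∃ n : ℕ, 1 ≤ n ∧ (n : ℝ) ≤ H ^ (1 / 8 : ℝ) ∧ V ^ 4 * Real.sqrt n < ‖Sw lac t n‖} ⊆ Gs U H (C0 * V) := by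
      have q1 : H ^ (1 / 8 : ℝ) ≤ Real.sqrt H := by
        rw [Real.sqrt_eq_rpow]
        exact Real.rpow_le_rpow_of_exponent_le hH1' (by norm_num)
      have q2 : C0 * V ≤ V ^ 4 := by
        calc C0 * V ≤ V * V := mul_le_mul_of_nonneg_right hVC hV0.le
          _ = V ^ 2 := by ring
          _ ≤ V ^ 4 := pow_le_pow_right₀ hV1 (by norm_num)
      rintro t ⟨b1, b2, ⟨n, n1, n2, n3⟩, k, m1, m2, m3⟩
      exact ⟨b1, b2, ⟨n, n1, n2.trans q1, (mul_le_mul_of_nonneg_right q2 (Real.sqrt_nonneg _)).trans_lt n3⟩,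
        k, m1, m2.trans q1, (mul_le_mul_of_nonneg_right q2 (Real.sqrt_nonneg _)).trans_lt m3⟩
    refine le_trans (ENNReal.ofReal_le_ofReal ?_) (m0.trans (measure_mono hsub))
    have q3 : Real.exp (-(Real.posLog (V / L ^ (1 / 4 - ε))) ^ (2 + ε)) ≤ Real.exp (-A) / 2 := by
      have z1 : Real.exp (-(Real.posLog (V / L ^ (1 / 4 - ε))) ^ (2 + ε)) ≤ Real.exp (-A + -1) := Real.exp_le_exp.2 (by linarith)
      have z2 : Real.exp (-1 : ℝ) ≤ 1 / 2 := by
        rw [Real.exp_neg, inv_eq_one_div]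
        apply one_div_le_one_div_of_le (by norm_num)
        have := Real.add_one_le_exp (1 : ℝ)
        linarith
      rw [Real.exp_add] at z1
      have z3 := mul_le_mul_of_nonneg_left z2 (Real.exp_pos (-A)).le
      linarith
    have q4 : (1 - ε) * Real.exp (-(Real.posLog (V / L ^ (1 / 4 - ε))) ^ (2 + ε)) * H ≤ Real.exp (-A) * H / 2 := by
      calc (1 - ε) * Real.exp (-(Real.posLog (V / L ^ (1 / 4 - ε))) ^ (2 + ε)) * H ≤ 1 * (Real.exp (-A) / 2) * H := by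
            apply mul_le_mul_of_nonneg_right _ hHp.le
            exact mul_le_mul (by linarith) q3 (Real.exp_pos _).le (by norm_num)
        _ = Real.exp (-A) * H / 2 := by ring
    nlinarith

end Pool.Agent.Helper66.LV
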