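import Pool.Agent.Helper66.LV.Defs
import Pool.Agent.Helper56.IT.K1
import Mathlib.Analysis.SpecialFunctions.Integrals.Basic

/-!
# MP_a499ba_nt, large values of the imaginary twists: the bilinear mean value
-/

set_option autoImplicit false

namespace Pool.Agent.Helper66.LV

open MeasureTheory Filter Pool.Agent.IT

theorem nit_cont {n : ℕ} (hn : 1 ≤ n) : Continuous fun t : ℝ => nit t n := by
  have : (fun t : ℝ => nit t n) = fun t : ℝ => Complex.exp (-(Complex.I * (t * Real.log n : ℝ))) :=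
    funext fun t => nit_eq hn t
  rw [this]
  fun_prop

theorem nit_conj {m n : ℕ} (hm : 1 ≤ m) (hn : 1 ≤ n) (t : ℝ) :
    nit t m * (starRingEnd ℂ) (nit t n) = Complex.exp ((-(Complex.I * ((Real.log m - Real.log n : ℝ) : ℂ))) * t) := by
  rw [nit_eq hm, nit_eq hn, ← Complex.exp_conj, ← Complex.exp_add]
  congr 1
  simp only [map_neg, map_mul, Complex.conj_I, Complex.conj_ofReal]
  push_cast
  ring

theorem log_gap {m n : ℕ} {M : ℝ} (hm : 1 ≤ m) (hn : 1 ≤ n) (hmM : (m : ℝ) ≤ M) (hnM : (n : ℝ) ≤ M) (hne : m ≠ n) :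
    1 / M ≤ |Real.log m - Real.log n| := by
  wlog h : n < m generalizing m n
  · rw [abs_sub_comm]
    exact this hn hm hnM hmM hne.symm (lt_of_le_of_ne (not_lt.1 h) hne)
  have hm0 : (0 : ℝ) < m := by exact_mod_cast hm
  have hn0 : (0 : ℝ) < n := by exact_mod_cast hn
  have h1 : Real.log ((n : ℝ) / m) ≤ (n : ℝ) / m - 1 := Real.log_le_sub_one_of_pos (by positivity)
  rw [Real.log_div hn0.ne' hm0.ne'] at h1
  have h2 : (n : ℝ) + 1 ≤ m := by exact_mod_cast h
  have h3 : 1 / (m : ℝ) ≤ 1 - (n : ℝ) / m := by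
    rw [div_le_iff₀ hm0, sub_mul, div_mul_cancel₀ _ hm0.ne']
    linarith
  have h4 : 1 / M ≤ 1 / (m : ℝ) := one_div_le_one_div_of_le hm0 hmM
  exact (h4.trans (h3.trans (by linarith))).trans (le_abs_self _)

theorem int_nit {m n : ℕ} {M U H : ℝ} (hm : 1 ≤ m) (hn : 1 ≤ n) (hmM : (m : ℝ) ≤ M) (hnM : (n : ℝ) ≤ M) :
    ‖(∫ t in U..(U + H), nit t m * (starRingEnd ℂ) (nit t n)) - (if m = n then (H : ℂ) else 0)‖ ≤ 2 * M := by
  have hm0 : (0 : ℝ) < m := by exact_mod_cast hm
  have hM : 0 < M := hm0.trans_le hmM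
  simp only [nit_conj hm hn]
  split_ifs with h
  · subst h
    simp only [sub_self, Complex.ofReal_zero, mul_zero, neg_zero, zero_mul, Complex.exp_zero, intervalIntegral.integral_const,
      add_sub_cancel_left, Complex.real_smul, mul_one, norm_zero]
    positivity
  · have hg := log_gap hm hn hmM hnM h
    set L : ℝ := Real.log m - Real.log n with hL
    have hL0 : L ≠ 0 := by
      intro h0
      rw [h0, abs_zero] at hg
      have : 0 < 1 / M := by positivity
      linarith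
    have hc : -(Complex.I * (L : ℂ)) ≠ 0 := by
      simp [hL0]
    rw [integral_exp_mul_complex hc, sub_zero, norm_div, norm_neg, norm_mul, Complex.norm_I, one_mul, Complex.norm_real,
      Real.norm_eq_abs]
    have he : ∀ u : ℝ, ‖Complex.exp (-(Complex.I * (L : ℂ)) * u)‖ = 1 := by
      intro u
      rw [show -(Complex.I * (L : ℂ)) * u = ((-(L * u) : ℝ) : ℂ) * Complex.I by push_cast; ring]
      exact Complex.norm_exp_ofReal_mul_I _
    have h1 : ‖Complex.exp (-(Complex.I * (L : ℂ)) * ((U + H : ℝ) : ℂ)) - Complex.exp (-(Complex.I * (L : ℂ)) * (U : ℂ))‖ ≤ 2 := by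
      refine (norm_sub_le _ _).trans ?_
      rw [he, he]
      norm_num
    have hLp : 0 < |L| := abs_pos.2 hL0
    rw [div_le_iff₀ hLp]
    refine h1.trans ?_
    have h2 : M * (1 / M) ≤ M * |L| := mul_le_mul_of_nonneg_left hg hM.le
    rw [mul_one_div_cancel hM.ne'] at h2
    linarith

theorem bil {ι κ : Type*} (S : Finset ι) (T : Finset κ) (m : ι → ℕ) (n : κ → ℕ) (a : ι → ℂ) (b : κ → ℂ) {M U H : ℝ}
    (hm : ∀ i ∈ S, 1 ≤ m i ∧ (m i : ℝ) ≤ M) (hn : ∀ j ∈ T, 1 ≤ n j ∧ (n j : ℝ) ≤ M) :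
    ‖(∫ t in U..(U + H), (∑ i ∈ S, a i * nit t (m i)) * (starRingEnd ℂ) (∑ j ∈ T, b j * nit t (n j))) -
      (H : ℂ) * ∑ i ∈ S, ∑ j ∈ T, (if m i = n j then a i * (starRingEnd ℂ) (b j) else 0)‖ ≤
      2 * M * (∑ i ∈ S, ‖a i‖) * ∑ j ∈ T, ‖b j‖ := by
  have h1 : ∀ t : ℝ, (∑ i ∈ S, a i * nit t (m i)) * (starRingEnd ℂ) (∑ j ∈ T, b j * nit t (n j)) =
      ∑ i ∈ S, ∑ j ∈ T, (a i * (starRingEnd ℂ) (b j)) * (nit t (m i) * (starRingEnd ℂ) (nit t (n j))) := by
    intro t
    rw [map_sum, Finset.sum_mul_sum]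
    refine Finset.sum_congr rfl fun i _ => Finset.sum_congr rfl fun j _ => ?_
    rw [map_mul]
    ring
  simp only [h1]
  have hci : ∀ i ∈ S, ∀ j ∈ T, Continuous fun t : ℝ =>
      (a i * (starRingEnd ℂ) (b j)) * (nit t (m i) * (starRingEnd ℂ) (nit t (n j))) := by
    intro i hi j hj
    exact continuous_const.mul ((nit_cont (hm i hi).1).mul (Complex.continuous_conj.comp (nit_cont (hn j hj).1)))
  have h2 : (∫ t in U..(U + H), ∑ i ∈ S, ∑ j ∈ T,
      (a i * (starRingEnd ℂ) (b j)) * (nit t (m i) * (starRingEnd ℂ) (nit t (n j)))) =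
      ∑ i ∈ S, ∑ j ∈ T, (a i * (starRingEnd ℂ) (b j)) * ∫ t in U..(U + H), nit t (m i) * (starRingEnd ℂ) (nit t (n j)) := by
    rw [intervalIntegral.integral_finsetSum]
    · refine Finset.sum_congr rfl fun i hi => ?_
      rw [intervalIntegral.integral_finsetSum]
      · refine Finset.sum_congr rfl fun j hj => ?_
        rw [intervalIntegral.integral_const_mul]
      · intro j hj
        exact (hci i hi j hj).intervalIntegrable _ _
    · intro i hi
      exact (continuous_finsetSum _ fun j hj => hci i hi j hj).intervalIntegrable _ _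
  rw [h2, Finset.mul_sum, ← Finset.sum_sub_distrib]
  have h3 : ∀ i ∈ S, ‖(∑ j ∈ T, (a i * (starRingEnd ℂ) (b j)) * ∫ t in U..(U + H), nit t (m i) * (starRingEnd ℂ) (nit t (n j))) -
      (H : ℂ) * ∑ j ∈ T, (if m i = n j then a i * (starRingEnd ℂ) (b j) else 0)‖ ≤ ∑ j ∈ T, ‖a i‖ * ‖b j‖ * (2 * M) := by
    intro i hi
    rw [Finset.mul_sum, ← Finset.sum_sub_distrib]
    refine (norm_sum_le _ _).trans (Finset.sum_le_sum fun j hj => ?_)
    have h4 : (a i * (starRingEnd ℂ) (b j)) * (∫ t in U..(U + H), nit t (m i) * (starRingEnd ℂ) (nit t (n j))) -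
        (H : ℂ) * (if m i = n j then a i * (starRingEnd ℂ) (b j) else 0) =
        (a i * (starRingEnd ℂ) (b j)) * ((∫ t in U..(U + H), nit t (m i) * (starRingEnd ℂ) (nit t (n j))) -
          (if m i = n j then (H : ℂ) else 0)) := by
      split_ifs <;> ring
    rw [h4, norm_mul, norm_mul, RCLike.norm_conj]
    exact mul_le_mul_of_nonneg_left (int_nit (hm i hi).1 (hn j hj).1 (hm i hi).2 (hn j hj).2) (by positivity)
  refine (norm_sum_le _ _).trans ((Finset.sum_le_sum h3).trans ?_)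
  rw [mul_assoc, Finset.sum_mul_sum, Finset.mul_sum]
  refine le_of_eq (Finset.sum_congr rfl fun i _ => ?_)
  rw [Finset.mul_sum]
  refine Finset.sum_congr rfl fun j _ => ?_
  ring

end Pool.Agent.Helper66.LV
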