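import Pool.Agent.Helper56.IT.Defs
import Mathlib.NumberTheory.Primorial

/-!
# MP_a499ba_nt, large values of the imaginary twists: definitions
-/

set_option autoImplicit false

namespace Pool.Agent.Helper66.LV

open MeasureTheory Filter Pool.Agent.IT

/-- the Dirichlet polynomial `∑_{n ≤ N} a(n) n^{-1/2-it}` -/
noncomputable def Dn (a : ℕ → ℂ) (N : ℕ) (t : ℝ) : ℂ :=
  ∑ n ∈ Finset.Icc 1 N, a n * (((n : ℝ) ^ (-(1 / 2) : ℝ) : ℝ) : ℂ) * nit t n

/-- the resonator -/
noncomputable def Rn (y : ℕ) (t : ℝ) : ℂ := ∑ d ∈ (primorial y).divisors, lac d * nit t d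

/-- the number of divisors of the primorial -/
noncomputable def Zy (y : ℕ) : ℝ := ((primorial y).divisors.card : ℝ)

/-- the gain -/
noncomputable def Py (y : ℕ) : ℝ := ∏ p ∈ (primorial y).primeFactors, (1 + (p : ℝ) ^ (-(1 / 2) : ℝ) / 2)

end Pool.Agent.Helper66.LV
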