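import Pool.Agent.Helper66.LV.LV
import Pool.Agent.Helper29.LV.PL
import Pool.Agent.Helper24.LV.DG
import Pool.Agent.Helper24.LV.AB
import Pool.Agent.Helper24.LV.LM
import Pool.Agent.Helper56.LV.FL

/-!
# MP_a499ba_nt, large values of the imaginary twists: the final statement of the project
-/

set_option autoImplicit false

namespace Pool.Agent.Helper66.LV

open MeasureTheory Filter Pool.Agent.IT

/-- the sums of `μ(n) n^{-it}` and `λ(n) n^{-it}` take values of order `exp(c √(log H) / log log H) √n`, `n ≤ H^{1/8}`, at the same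
`t`, for `t ∈ [U, U + H]` of measure at least `H^{1-ε}` -/
theorem lv (ε : ℝ) (hε : 0 < ε) : ∃ c : ℝ, 0 < c ∧ ∃ H0 : ℝ, ∀ H : ℝ, H0 ≤ H → ∀ U : ℝ,
    ENNReal.ofReal (H ^ (1 - ε)) ≤ volume {t : ℝ | U ≤ t ∧ t ≤ U + H ∧
      (∃ n : ℕ, 1 ≤ n ∧ (n : ℝ) ≤ H ^ (1 / 8 : ℝ) ∧
        Real.exp (c * Real.sqrt (Real.log H) / Real.log (Real.log H)) * Real.sqrt n < ‖Sw muc t n‖) ∧
      ∃ n : ℕ, 1 ≤ n ∧ (n : ℝ) ≤ H ^ (1 / 8 : ℝ) ∧
        Real.exp (c * Real.sqrt (Real.log H) / Real.log (Real.log H)) * Real.sqrt n < ‖Sw lac t n‖} :=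
  lv_of (fun _ _ _ hB h => Pool.Agent.Helper24.LV.lam_of_mu hB h) (fun _ _ _ _ hN hB h => Pool.Agent.Helper24.LV.dn_le hN hB h)
    py_ge zy_le (fun _ _ h => Pool.Agent.Helper24.LV.diag h) ε hε

/-- the same for the rotated real sums, in every direction and in every window -/
theorem large_values {C1 C2 : ℝ} (h1 : ∀ t : ℝ, 10 ≤ |t| → DgW muc C1 t) (h2 : ∀ t : ℝ, 10 ≤ |t| → DgW lac C2 t)
    (ε : ℝ) (hε : 0 < ε) : ∃ c : ℝ, 0 < c ∧ ∃ H0 : ℝ, ∀ H : ℝ, H0 ≤ H → ∀ U : ℝ,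
    ENNReal.ofReal (H ^ (1 - ε)) ≤ volume {t : ℝ | U ≤ t ∧ t ≤ U + H ∧
      ExW muc (Real.exp (c * Real.sqrt (Real.log H) / Real.log (Real.log H))) t ∧
      ExW lac (Real.exp (c * Real.sqrt (Real.log H) / Real.log (Real.log H))) t} :=
  fl_of lv h1 h2 ε hε

end Pool.Agent.Helper66.LV
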