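import Pool.Agent.Helper66.LV.PZ

/-!
# MP_a499ba_nt, large values of the imaginary twists: the sums of `μ(n) n^{-it}` and `λ(n) n^{-it}` at the same `t`
-/

set_option autoImplicit false

namespace Pool.Agent.Helper66.LV

open MeasureTheory Filter Pool.Agent.IT

/-- the numbers `y` and `N` -/
theorem params {η H : ℝ} (hη : 0 < η) (hη1 : η ≤ 1 / 16) (hH : 16 ≤ H) (hZ : ∀ y : ℕ, Zy y ≤ 2 ^ y) :
    primorial ⌊η * Real.log H⌋₊ ≤ ⌊H ^ (1 / 8 : ℝ)⌋₊ ∧
    4 * (primorial ⌊η * Real.log H⌋₊ : ℝ) * Zy ⌊η * Real.log H⌋₊ * (⌊H ^ (1 / 8 : ℝ)⌋₊ : ℝ) ^ 2 ≤ H ∧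
    2 * (⌊H ^ (1 / 8 : ℝ)⌋₊ : ℝ) ^ 3 ≤ H ∧ Zy ⌊η * Real.log H⌋₊ ^ 2 ≤ H ^ (2 * η) := by
  have hH0 : (0 : ℝ) < H := by linarith
  have hH1 : (1 : ℝ) ≤ H := by linarith
  have hlog : 0 ≤ Real.log H := Real.log_nonneg hH1
  set y : ℕ := ⌊η * Real.log H⌋₊ with hy
  have hyle : (y : ℝ) ≤ η * Real.log H := Nat.floor_le (by positivity)
  have h2exp : ∀ k : ℕ, (4 : ℝ) ^ k ≤ Real.exp (2 * k) := by
    intro k
    have h4 : (4 : ℝ) ≤ Real.exp 2 := by
      have := Real.add_one_le_exp (1 : ℝ)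
      calc (4 : ℝ) = 2 * 2 := by norm_num
        _ ≤ Real.exp 1 * Real.exp 1 := mul_le_mul (by linarith) (by linarith) (by norm_num) (Real.exp_pos _).le
        _ = Real.exp 2 := by rw [← Real.exp_add]; norm_num
    calc (4 : ℝ) ^ k ≤ Real.exp 2 ^ k := pow_le_pow_left₀ (by norm_num) h4 k
      _ = Real.exp (2 * k) := by rw [← Real.exp_nat_mul]; ring_nf
  have h3exp : ∀ k : ℕ, (2 : ℝ) ^ k ≤ Real.exp k := by
    intro k
    have h4 : (2 : ℝ) ≤ Real.exp 1 := by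
      have := Real.add_one_le_exp (1 : ℝ)
      linarith
    calc (2 : ℝ) ^ k ≤ Real.exp 1 ^ k := pow_le_pow_left₀ (by norm_num) h4 k
      _ = Real.exp k := by rw [← Real.exp_nat_mul]; ring_nf
  have hrp : ∀ r : ℝ, Real.exp (r * Real.log H) = H ^ r := by
    intro r
    rw [Real.rpow_def_of_pos hH0, mul_comm]
  have h4y : (4 : ℝ) ^ y ≤ H ^ (2 * η) := by
    refine (h2exp y).trans ?_
    rw [← hrp]
    apply Real.exp_le_exp.2
    linarith
  have hZy : Zy y ≤ H ^ η := by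
    refine ((hZ y).trans (h3exp y)).trans ?_
    rw [← hrp]
    exact Real.exp_le_exp.2 hyle
  have hPy : (primorial y : ℝ) ≤ H ^ (2 * η) := le_trans (by exact_mod_cast primorial_le_four_pow y) h4y
  have hN : (⌊H ^ (1 / 8 : ℝ)⌋₊ : ℝ) ≤ H ^ (1 / 8 : ℝ) := Nat.floor_le (by positivity)
  have hmono : ∀ a b : ℝ, a ≤ b → H ^ a ≤ H ^ b := fun a b h => Real.rpow_le_rpow_of_exponent_le hH1 h
  have h16 : (4 : ℝ) ≤ H ^ (1 / 2 : ℝ) := by
    rw [← Real.sqrt_eq_rpow]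
    apply Real.le_sqrt_of_sq_le
    norm_num
    linarith
  refine ⟨?_, ?_, ?_, ?_⟩
  · apply Nat.le_floor
    exact hPy.trans (hmono _ _ (by linarith))
  · calc 4 * (primorial y : ℝ) * Zy y * (⌊H ^ (1 / 8 : ℝ)⌋₊ : ℝ) ^ 2 ≤ H ^ (1 / 2 : ℝ) * H ^ (2 * η) * H ^ η * (H ^ (1 / 8 : ℝ)) ^ 2 := by
          have z0 : 0 ≤ Zy y := by unfold Zy; positivity
          gcongr
      _ = H ^ (1 / 2 + 2 * η + η + 1 / 4) := by
          rw [← Real.rpow_natCast (H ^ (1 / 8 : ℝ)) 2, ← Real.rpow_mul hH0.le, ← Real.rpow_add hH0, ← Real.rpow_add hH0,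
            ← Real.rpow_add hH0]
          norm_num
      _ ≤ H ^ (1 : ℝ) := hmono _ _ (by linarith)
      _ = H := Real.rpow_one H
  · calc 2 * (⌊H ^ (1 / 8 : ℝ)⌋₊ : ℝ) ^ 3 ≤ H ^ (1 / 2 : ℝ) * (H ^ (1 / 8 : ℝ)) ^ 3 := by
          gcongr
          linarith
      _ = H ^ (7 / 8 : ℝ) := by
          rw [← Real.rpow_natCast (H ^ (1 / 8 : ℝ)) 3, ← Real.rpow_mul hH0.le, ← Real.rpow_add hH0]
          norm_num
      _ ≤ H ^ (1 : ℝ) := hmono _ _ (by norm_num)
      _ = H := Real.rpow_one H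
  · calc Zy y ^ 2 ≤ (H ^ η) ^ 2 := pow_le_pow_left₀ (by unfold Zy; positivity) hZy 2
      _ = H ^ (2 * η) := by
          rw [← Real.rpow_natCast (H ^ η) 2, ← Real.rpow_mul hH0.le]
          norm_num
          ring_nf

/-- comparison of the orders -/
theorem order_cmp {c : ℝ} (hc : 0 < c) : ∀ᶠ L : ℝ in atTop,
    8 * (2 + L) ^ 2 < Real.exp (c * Real.sqrt L / Real.log L) := by
  set a : ℝ := Real.sqrt c / 2 with ha
  have ha0 : 0 < a := by positivity
  have h1 : ∀ᶠ L : ℝ in atTop, ‖Real.log L‖ ≤ a * ‖L ^ (1 / 4 : ℝ)‖ :=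
    (isLittleO_log_rpow_atTop (by norm_num : (0 : ℝ) < 1 / 4)).bound ha0
  filter_upwards [h1, eventually_ge_atTop (5 : ℝ)] with L h2 h5
  have hL0 : 0 < L := by linarith
  have hlog : 0 < Real.log L := Real.log_pos (by linarith)
  rw [Real.norm_eq_abs, Real.norm_eq_abs, abs_of_pos hlog, abs_of_nonneg (by positivity)] at h2
  have h3 : Real.log L * Real.log L ≤ c / 4 * Real.sqrt L := by
    calc Real.log L * Real.log L ≤ (a * L ^ (1 / 4 : ℝ)) * (a * L ^ (1 / 4 : ℝ)) := mul_le_mul h2 h2 hlog.le (by positivity)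
      _ = (a * a) * (L ^ (1 / 4 : ℝ) * L ^ (1 / 4 : ℝ)) := by ring
      _ = c / 4 * Real.sqrt L := by
          rw [← Real.rpow_add hL0, Real.sqrt_eq_rpow L]
          congr 1
          · rw [ha]
            have := Real.mul_self_sqrt hc.le
            nlinarith
          · norm_num
  have h4 : 4 * Real.log L ≤ c * Real.sqrt L / Real.log L := by
    rw [le_div_iff₀ hlog]
    linarith
  calc 8 * (2 + L) ^ 2 < L ^ 4 := by nlinarith [sq_nonneg (L - 5), mul_pos hL0 hL0]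
    _ = Real.exp (4 * Real.log L) := by
        rw [← Real.log_rpow hL0, Real.exp_log (by positivity)]
        norm_cast
    _ ≤ _ := Real.exp_le_exp.2 h4

/-- block LV from the other blocks -/
theorem lv_of
    (hLM : ∀ (t B : ℝ) (n : ℕ), 0 ≤ B → (∀ m : ℕ, 1 ≤ m → m ≤ n → ‖Sw muc t m‖ ≤ B * Real.sqrt m) →
      ‖Sw lac t n‖ ≤ B * Real.sqrt n * (1 + Real.log n))
    (hAB : ∀ (a : ℕ → ℂ) (t B : ℝ) (N : ℕ), 1 ≤ N → 0 ≤ B → (∀ n : ℕ, 1 ≤ n → n ≤ N → ‖Sw a t n‖ ≤ B * Real.sqrt n) →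
      ‖Dn a N t‖ ≤ B * (2 + Real.log N))
    (hPL : ∀ᶠ y : ℕ in atTop, Real.exp (Real.sqrt y / (8 * Real.log y)) ≤ Py y)
    (hZ : ∀ y : ℕ, Zy y ≤ 2 ^ y) (hD : ∀ y N : ℕ, primorial y ≤ N → Diag y N)
    (ε : ℝ) (hε : 0 < ε) : ∃ c : ℝ, 0 < c ∧ ∃ H0 : ℝ, ∀ H : ℝ, H0 ≤ H → ∀ U : ℝ,
    ENNReal.ofReal (H ^ (1 - ε)) ≤ volume {t : ℝ | U ≤ t ∧ t ≤ U + H ∧
      (∃ n : ℕ, 1 ≤ n ∧ (n : ℝ) ≤ H ^ (1 / 8 : ℝ) ∧
        Real.exp (c * Real.sqrt (Real.log H) / Real.log (Real.log H)) * Real.sqrt n < ‖Sw muc t n‖) ∧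
      ∃ n : ℕ, 1 ≤ n ∧ (n : ℝ) ≤ H ^ (1 / 8 : ℝ) ∧
        Real.exp (c * Real.sqrt (Real.log H) / Real.log (Real.log H)) * Real.sqrt n < ‖Sw lac t n‖} := by
  set η : ℝ := min (1 / 16) (ε / 4) with hη
  have hη0 : 0 < η := by positivity
  have hη1 : η ≤ 1 / 16 := min_le_left _ _
  have hη2 : η ≤ ε / 4 := min_le_right _ _
  set c : ℝ := Real.sqrt (η / 2) / 16 with hc
  have hc0 : 0 < c := by positivity
  refine ⟨c, hc0, ?_⟩
  have tl : Tendsto (fun H : ℝ => Real.log H) atTop atTop := Real.tendsto_log_atTop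
  have ty : Tendsto (fun H : ℝ => ⌊η * Real.log H⌋₊) atTop atTop := tendsto_nat_floor_atTop.comp (tl.const_mul_atTop hη0)
  have e1 : ∀ᶠ H : ℝ in atTop, Real.exp (Real.sqrt ⌊η * Real.log H⌋₊ / (8 * Real.log ⌊η * Real.log H⌋₊)) ≤ Py ⌊η * Real.log H⌋₊ :=
    ty.eventually hPL
  have e2 : ∀ᶠ H : ℝ in atTop, 8 * (2 + Real.log H) ^ 2 < Real.exp (c * Real.sqrt (Real.log H) / Real.log (Real.log H)) :=
    tl.eventually (order_cmp hc0)
  have e3 : ∀ᶠ H : ℝ in atTop, 2 ≤ η * Real.log H := (tl.const_mul_atTop hη0).eventually_ge_atTop 2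
  have e4 : ∀ᶠ H : ℝ in atTop, 32 * (1 + Real.log H) ≤ H ^ (ε / 2) := by
    have h1 : ∀ᶠ H : ℝ in atTop, ‖Real.log H‖ ≤ (1 / 64) * ‖H ^ (ε / 2)‖ :=
      (isLittleO_log_rpow_atTop (by positivity : (0 : ℝ) < ε / 2)).bound (by norm_num)
    have h2 : ∀ᶠ H : ℝ in atTop, 64 ≤ H ^ (ε / 2) := (tendsto_rpow_atTop (by positivity)).eventually_ge_atTop 64
    filter_upwards [h1, h2, eventually_ge_atTop (1 : ℝ)] with H k1 k2 k3
    rw [Real.norm_eq_abs, Real.norm_eq_abs, abs_of_nonneg (Real.log_nonneg k3), abs_of_nonneg (by positivity)] at k1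
    linarith
  obtain ⟨H0, h0⟩ := Filter.eventually_atTop.1 (e1.and (e2.and (e3.and (e4.and (eventually_ge_atTop (16 : ℝ))))))
  refine ⟨H0, fun H hH U => ?_⟩
  obtain ⟨k1, k2, k3, k4, k5⟩ := h0 H hH
  have hH0 : (0 : ℝ) < H := by linarith
  have hH1 : (1 : ℝ) ≤ H := by linarith
  have hlog : 0 ≤ Real.log H := Real.log_nonneg hH1
  obtain ⟨p1, p2, p3, p4⟩ := params hη0 hη1 k5 hZ
  set y : ℕ := ⌊η * Real.log H⌋₊ with hy
  set N : ℕ := ⌊H ^ (1 / 8 : ℝ)⌋₊ with hN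
  have hN1 : 1 ≤ N := le_trans (primorial_pos y) p1
  have hNle : (N : ℝ) ≤ H ^ (1 / 8 : ℝ) := Nat.floor_le (by positivity)
  have hNH : (N : ℝ) ≤ H := hNle.trans (by
    calc H ^ (1 / 8 : ℝ) ≤ H ^ (1 : ℝ) := Real.rpow_le_rpow_of_exponent_le hH1 (by norm_num)
      _ = H := Real.rpow_one H)
  have hN0 : (1 : ℝ) ≤ N := by exact_mod_cast hN1
  have hlogN : Real.log N ≤ Real.log H := Real.log_le_log (by linarith) hNH
  have hlogN0 : 0 ≤ Real.log N := Real.log_nonneg hN0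
  have hcore := pz_core (hD y N p1) hN1 (U := U) hH0 p2 p3
  set Vs : Set ℝ := {t : ℝ | U ≤ t ∧ t ≤ U + H ∧ Py y / 8 ≤ ‖Dn lac N t‖} with hVs
  -- the measure
  have hmeas : H ^ (1 - ε) ≤ (volume Vs).toReal := by
    have v0 : 0 ≤ (volume Vs).toReal := ENNReal.toReal_nonneg
    have m1 : H ≤ H ^ ε * (volume Vs).toReal := by
      calc H ≤ 32 * Zy y ^ 2 * (1 + Real.log N) * (volume Vs).toReal := hcore
        _ ≤ 32 * H ^ (2 * η) * (1 + Real.log H) * (volume Vs).toReal := by gcongr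
        _ = H ^ (2 * η) * (32 * (1 + Real.log H)) * (volume Vs).toReal := by ring
        _ ≤ H ^ (ε / 2) * H ^ (ε / 2) * (volume Vs).toReal := by
            gcongr
            linarith
        _ = H ^ ε * (volume Vs).toReal := by
            rw [← Real.rpow_add hH0]
            ring_nf
    have m2 : H ^ (1 - ε) * H ^ ε = H := by
      rw [← Real.rpow_add hH0]
      simp
    have m3 : 0 < H ^ ε := by positivity
    have m4 : H ^ (1 - ε) * H ^ ε ≤ (volume Vs).toReal * H ^ ε := by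
      rw [m2]
      linarith
    exact le_of_mul_le_mul_right m4 m3
  refine (ENNReal.ofReal_le_of_le_toReal hmeas).trans (measure_mono ?_)
  -- the values
  set B : ℝ := Real.exp (c * Real.sqrt (Real.log H) / Real.log (Real.log H)) with hB
  have hB0 : 0 < B := Real.exp_pos _
  have hyr : η * Real.log H / 2 ≤ (y : ℝ) := by
    have := Nat.lt_floor_add_one (η * Real.log H)
    linarith
  have hyle : (y : ℝ) ≤ η * Real.log H := Nat.floor_le (by positivity)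
  have hy1 : (1 : ℝ) ≤ (y : ℝ) := by linarith
  have hy2 : (2 : ℝ) ≤ (y : ℝ) := by
    have : 2 ≤ y := Nat.le_floor (by exact_mod_cast k3)
    exact_mod_cast this
  have hlogy : 0 < Real.log y := Real.log_pos (by linarith)
  have hylog : (y : ℝ) ≤ Real.log H := by nlinarith
  have hll : Real.log y ≤ Real.log (Real.log H) := Real.log_le_log (by linarith) hylog
  have hBig : B * B ≤ Py y := by
    refine le_trans ?_ k1
    rw [hB, ← Real.exp_add]
    apply Real.exp_le_exp.2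
    have s1 : Real.sqrt (η / 2) * Real.sqrt (Real.log H) ≤ Real.sqrt y := by
      rw [← Real.sqrt_mul (by positivity)]
      apply Real.sqrt_le_sqrt
      linarith
    have s2 : 16 * (2 * (c * Real.sqrt (Real.log H))) = 2 * (Real.sqrt (η / 2) * Real.sqrt (Real.log H)) := by
      rw [hc]
      ring
    calc c * Real.sqrt (Real.log H) / Real.log (Real.log H) + c * Real.sqrt (Real.log H) / Real.log (Real.log H) =
          2 * (c * Real.sqrt (Real.log H)) / Real.log (Real.log H) := by ring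
      _ ≤ 2 * (c * Real.sqrt (Real.log H)) / Real.log y := by
          apply div_le_div_of_nonneg_left _ hlogy hll
          positivity
      _ ≤ (Real.sqrt y / 8) / Real.log y := by
          apply div_le_div_of_nonneg_right _ hlogy.le
          linarith
      _ = Real.sqrt y / (8 * Real.log y) := by rw [div_div]
  have hfin : B * (1 + Real.log N) * (2 + Real.log N) < Py y / 8 := by
    have f1 : (1 + Real.log N) * (2 + Real.log N) ≤ (2 + Real.log H) ^ 2 := by nlinarith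
    have f2 : 8 * ((1 + Real.log N) * (2 + Real.log N)) < B := by linarith
    have f3 : B * (8 * ((1 + Real.log N) * (2 + Real.log N))) < B * B := mul_lt_mul_of_pos_left f2 hB0
    linarith
  rintro t ⟨t1, t2, t3⟩
  refine ⟨t1, t2, ?_, ?_⟩
  · by_contra hno
    push Not at hno
    have g1 : ∀ m : ℕ, 1 ≤ m → m ≤ N → ‖Sw muc t m‖ ≤ B * Real.sqrt m := fun m hm hmN =>
      hno m hm (le_trans (by exact_mod_cast hmN) hNle)
    have g2 : ∀ n : ℕ, 1 ≤ n → n ≤ N → ‖Sw lac t n‖ ≤ (B * (1 + Real.log N)) * Real.sqrt n := by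
      intro n hn hnN
      refine (hLM t B n hB0.le fun m hm hmn => g1 m hm (hmn.trans hnN)).trans ?_
      have hlg : Real.log n ≤ Real.log N := Real.log_le_log (by exact_mod_cast hn) (by exact_mod_cast hnN)
      calc B * Real.sqrt n * (1 + Real.log n) ≤ B * Real.sqrt n * (1 + Real.log N) := by gcongr
        _ = _ := by ring
    have g3 := hAB lac t (B * (1 + Real.log N)) N hN1 (by positivity) g2
    linarith
  · by_contra hno
    push Not at hno
    have g2 : ∀ n : ℕ, 1 ≤ n → n ≤ N → ‖Sw lac t n‖ ≤ B * Real.sqrt n := fun m hm hmN =>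
      hno m hm (le_trans (by exact_mod_cast hmN) hNle)
    have g3 := hAB lac t B N hN1 hB0.le g2
    have g4 : B * (2 + Real.log N) ≤ B * (1 + Real.log N) * (2 + Real.log N) := by
      have : B ≤ B * (1 + Real.log N) := le_mul_of_one_le_right hB0.le (by linarith)
      exact mul_le_mul_of_nonneg_right this (by linarith)
    linarith

end Pool.Agent.Helper66.LV
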