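import Pool.Agent.Helper66.LV.LV
import Pool.Agent.Helper29.LV.PL
import Pool.Agent.Helper24.LV.DG
import Pool.Agent.Helper24.LV.AB
import Pool.Agent.Helper24.LV.LM

/-!
# MP_a499ba_nt, large values of the imaginary twists, uniformly in the size `V`
-/

set_option autoImplicit false

namespace Pool.Agent.Helper66.LV

open MeasureTheory Filter Pool.Agent.IT

/-- the conditions of `pz_core` for `N = 4 ^ y` -/
theorem params2 {H : ℝ} {y : ℕ} (hH : 16 ≤ H) (hy : (y : ℝ) ≤ Real.log H / 16) :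
    4 * (primorial y : ℝ) * Zy y * (((4 ^ y : ℕ) : ℝ)) ^ 2 ≤ H ∧ 2 * (((4 ^ y : ℕ) : ℝ)) ^ 3 ≤ H ∧
      Zy y ^ 2 ≤ Real.exp (2 * y) ∧ ((4 ^ y : ℕ) : ℝ) ≤ H ^ (1 / 8 : ℝ) ∧ Real.log ((4 ^ y : ℕ) : ℝ) ≤ 2 * y := by
  have hH0 : (0 : ℝ) < H := by linarith
  have hH1 : (1 : ℝ) ≤ H := by linarith
  have hlog : 0 ≤ Real.log H := Real.log_nonneg hH1
  have h4 : (4 : ℝ) ≤ Real.exp 2 := by
    have := Real.add_one_le_exp (1 : ℝ)
    calc (4 : ℝ) = 2 * 2 := by norm_num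
      _ ≤ Real.exp 1 * Real.exp 1 := mul_le_mul (by linarith) (by linarith) (by norm_num) (Real.exp_pos _).le
      _ = Real.exp 2 := by rw [← Real.exp_add]; norm_num
  have h2 : (2 : ℝ) ≤ Real.exp 1 := by
    have := Real.add_one_le_exp (1 : ℝ)
    linarith
  have h4y : (4 : ℝ) ^ y ≤ Real.exp (2 * y) := by
    calc (4 : ℝ) ^ y ≤ Real.exp 2 ^ y := pow_le_pow_left₀ (by norm_num) h4 y
      _ = Real.exp (2 * y) := by rw [← Real.exp_nat_mul]; ring_nf
  have h2y : (2 : ℝ) ^ y ≤ Real.exp y := by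
    calc (2 : ℝ) ^ y ≤ Real.exp 1 ^ y := pow_le_pow_left₀ (by norm_num) h2 y
      _ = Real.exp y := by rw [← Real.exp_nat_mul]; ring_nf
  have hrp : ∀ r : ℝ, Real.exp (r * Real.log H) = H ^ r := by
    intro r
    rw [Real.rpow_def_of_pos hH0, mul_comm]
  have hmono : ∀ a b : ℝ, a ≤ b → H ^ a ≤ H ^ b := fun a b h => Real.rpow_le_rpow_of_exponent_le hH1 h
  have hey : Real.exp y ≤ H ^ (1 / 16 : ℝ) := by
    rw [← hrp]
    apply Real.exp_le_exp.2
    linarith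
  have he2y : Real.exp (2 * y) ≤ H ^ (1 / 8 : ℝ) := by
    rw [← hrp]
    apply Real.exp_le_exp.2
    linarith
  have hZ : Zy y ≤ Real.exp y := (zy_le y).trans h2y
  have hZ0 : 0 ≤ Zy y := by unfold Zy; positivity
  have hP : (primorial y : ℝ) ≤ Real.exp (2 * y) := le_trans (by exact_mod_cast primorial_le_four_pow y) h4y
  have hN : ((4 ^ y : ℕ) : ℝ) ≤ Real.exp (2 * y) := by push_cast; exact h4y
  have hN8 := hN.trans he2y
  have h16 : (4 : ℝ) ≤ H ^ (1 / 2 : ℝ) := by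
    rw [← Real.sqrt_eq_rpow]
    apply Real.le_sqrt_of_sq_le
    norm_num
    linarith
  refine ⟨?_, ?_, ?_, hN8, ?_⟩
  · calc 4 * (primorial y : ℝ) * Zy y * (((4 ^ y : ℕ) : ℝ)) ^ 2 ≤ H ^ (1 / 2 : ℝ) * H ^ (1 / 8 : ℝ) * H ^ (1 / 16 : ℝ) * (H ^ (1 / 8 : ℝ)) ^ 2 := by
          have q1 := hP.trans he2y
          have q2 := hZ.trans hey
          gcongr
      _ = H ^ (15 / 16 : ℝ) := by
          rw [← Real.rpow_natCast (H ^ (1 / 8 : ℝ)) 2, ← Real.rpow_mul hH0.le, ← Real.rpow_add hH0, ← Real.rpow_add hH0,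
            ← Real.rpow_add hH0]
          norm_num
      _ ≤ H ^ (1 : ℝ) := hmono _ _ (by norm_num)
      _ = H := Real.rpow_one H
  · calc 2 * (((4 ^ y : ℕ) : ℝ)) ^ 3 ≤ H ^ (1 / 2 : ℝ) * (H ^ (1 / 8 : ℝ)) ^ 3 := by
          gcongr
          linarith
      _ = H ^ (7 / 8 : ℝ) := by
          rw [← Real.rpow_natCast (H ^ (1 / 8 : ℝ)) 3, ← Real.rpow_mul hH0.le, ← Real.rpow_add hH0]
          norm_num
      _ ≤ H ^ (1 : ℝ) := hmono _ _ (by norm_num)
      _ = H := Real.rpow_one H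
  · calc Zy y ^ 2 ≤ Real.exp y ^ 2 := pow_le_pow_left₀ hZ0 hZ 2
      _ = Real.exp (2 * y) := by rw [← Real.exp_nat_mul]; norm_num
  · calc Real.log ((4 ^ y : ℕ) : ℝ) ≤ Real.log (Real.exp (2 * y)) := Real.log_le_log (by positivity) hN
      _ = 2 * y := Real.log_exp _

/-- the set for one `y`: measure and values -/
theorem one_y {H U V : ℝ} {y : ℕ} (hH : 16 ≤ H) (hy : (y : ℝ) ≤ Real.log H / 16) (hy7 : 7 ≤ y) (hV : 0 < V)
    (hg : 8 * V * (2 + 2 * y) ^ 2 < Py y) :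
    ENNReal.ofReal (H * Real.exp (-(3 * y))) ≤ volume {t : ℝ | U ≤ t ∧ t ≤ U + H ∧
      (∃ n : ℕ, 1 ≤ n ∧ (n : ℝ) ≤ H ^ (1 / 8 : ℝ) ∧ V * Real.sqrt n < ‖Sw muc t n‖) ∧
      ∃ n : ℕ, 1 ≤ n ∧ (n : ℝ) ≤ H ^ (1 / 8 : ℝ) ∧ V * Real.sqrt n < ‖Sw lac t n‖} := by
  have hH0 : (0 : ℝ) < H := by linarith
  obtain ⟨p2, p3, p4, p5, p6⟩ := params2 hH hy
  set N : ℕ := 4 ^ y with hN
  have hN1 : 1 ≤ N := Nat.one_le_pow _ _ (by norm_num)
  have hN0 : (1 : ℝ) ≤ N := by exact_mod_cast hN1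
  have hlogN0 : 0 ≤ Real.log N := Real.log_nonneg hN0
  have hy0 : (7 : ℝ) ≤ y := by exact_mod_cast hy7
  have hPN : primorial y ≤ N := primorial_le_four_pow y
  have hcore := pz_core (Pool.Agent.Helper24.LV.diag hPN) hN1 (U := U) hH0 p2 p3
  set Vs : Set ℝ := {t : ℝ | U ≤ t ∧ t ≤ U + H ∧ Py y / 8 ≤ ‖Dn lac N t‖} with hVs
  have hmeas : H * Real.exp (-(3 * y)) ≤ (volume Vs).toReal := by
    have v0 : 0 ≤ (volume Vs).toReal := ENNReal.toReal_nonneg
    have e1 : 32 * (1 + 2 * (y : ℝ)) ≤ Real.exp y := by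
      have q1 : (1 + (y : ℝ) / 5) ^ 5 ≤ Real.exp y := by
        have q2 : 1 + (y : ℝ) / 5 ≤ Real.exp ((y : ℝ) / 5) := by linarith [Real.add_one_le_exp ((y : ℝ) / 5)]
        calc (1 + (y : ℝ) / 5) ^ 5 ≤ Real.exp ((y : ℝ) / 5) ^ 5 := pow_le_pow_left₀ (by positivity) q2 5
          _ = Real.exp y := by
              rw [← Real.exp_nat_mul]
              congr 1
              push_cast
              ring
      have q3 : Real.exp 7 * Real.exp ((y : ℝ) - 7) = Real.exp y := by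
        rw [← Real.exp_add]
        ring_nf
      have q4 : (480 : ℝ) ≤ Real.exp 7 := by
        have := Real.exp_one_gt_d9
        calc (480 : ℝ) ≤ (2.7182818283 : ℝ) ^ 7 := by norm_num
          _ ≤ Real.exp 1 ^ 7 := pow_le_pow_left₀ (by norm_num) this.le 7
          _ = Real.exp 7 := by rw [← Real.exp_nat_mul]; norm_num
      have q5 : 1 + ((y : ℝ) - 7) ≤ Real.exp ((y : ℝ) - 7) := by linarith [Real.add_one_le_exp ((y : ℝ) - 7)]
      calc 32 * (1 + 2 * (y : ℝ)) ≤ 480 * (1 + ((y : ℝ) - 7)) := by linarith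
        _ ≤ Real.exp 7 * Real.exp ((y : ℝ) - 7) := mul_le_mul q4 q5 (by linarith) (Real.exp_pos _).le
        _ = Real.exp y := q3
    have m1 : H ≤ Real.exp (3 * y) * (volume Vs).toReal := by
      calc H ≤ 32 * Zy y ^ 2 * (1 + Real.log N) * (volume Vs).toReal := hcore
        _ ≤ 32 * Real.exp (2 * y) * (1 + 2 * y) * (volume Vs).toReal := by gcongr
        _ = Real.exp (2 * y) * (32 * (1 + 2 * (y : ℝ))) * (volume Vs).toReal := by ring
        _ ≤ Real.exp (2 * y) * Real.exp y * (volume Vs).toReal := by gcongr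
        _ = Real.exp (3 * y) * (volume Vs).toReal := by
            rw [← Real.exp_add]
            ring_nf
    have m2 : Real.exp (-(3 * (y : ℝ))) * Real.exp (3 * y) = 1 := by
      rw [← Real.exp_add]
      simp
    calc H * Real.exp (-(3 * y)) ≤ (Real.exp (3 * y) * (volume Vs).toReal) * Real.exp (-(3 * y)) :=
          mul_le_mul_of_nonneg_right m1 (Real.exp_pos _).le
      _ = (Real.exp (-(3 * (y : ℝ))) * Real.exp (3 * y)) * (volume Vs).toReal := by ring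
      _ = (volume Vs).toReal := by rw [m2, one_mul]
  refine (ENNReal.ofReal_le_of_le_toReal hmeas).trans (measure_mono ?_)
  have hfin : V * (1 + Real.log N) * (2 + Real.log N) < Py y / 8 := by
    have f1 : (1 + Real.log N) * (2 + Real.log N) ≤ (2 + 2 * (y : ℝ)) ^ 2 := by nlinarith
    have f2 : V * ((1 + Real.log N) * (2 + Real.log N)) ≤ V * (2 + 2 * (y : ℝ)) ^ 2 := mul_le_mul_of_nonneg_left f1 hV.le
    linarith
  rintro t ⟨t1, t2, t3⟩
  refine ⟨t1, t2, ?_, ?_⟩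
  · by_contra hno
    push Not at hno
    have g1 : ∀ m : ℕ, 1 ≤ m → m ≤ N → ‖Sw muc t m‖ ≤ V * Real.sqrt m := fun m hm hmN =>
      hno m hm (le_trans (by exact_mod_cast hmN) p5)
    have g2 : ∀ n : ℕ, 1 ≤ n → n ≤ N → ‖Sw lac t n‖ ≤ (V * (1 + Real.log N)) * Real.sqrt n := by
      intro n hn hnN
      refine (Pool.Agent.Helper24.LV.lam_of_mu hV.le fun m hm hmn => g1 m hm (hmn.trans hnN)).trans ?_
      have hlg : Real.log n ≤ Real.log N := Real.log_le_log (by exact_mod_cast hn) (by exact_mod_cast hnN)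
      calc V * Real.sqrt n * (1 + Real.log n) ≤ V * Real.sqrt n * (1 + Real.log N) := by gcongr
        _ = _ := by ring
    have g3 := Pool.Agent.Helper24.LV.dn_le hN1 (by positivity) g2
    linarith
  · by_contra hno
    push Not at hno
    have g2 : ∀ n : ℕ, 1 ≤ n → n ≤ N → ‖Sw lac t n‖ ≤ V * Real.sqrt n := fun m hm hmN =>
      hno m hm (le_trans (by exact_mod_cast hmN) p5)
    have g3 := Pool.Agent.Helper24.LV.dn_le hN1 hV.le g2
    have g4 : V * (2 + Real.log N) ≤ V * (1 + Real.log N) * (2 + Real.log N) := by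
      have : V ≤ V * (1 + Real.log N) := le_mul_of_one_le_right hV.le (by linarith)
      exact mul_le_mul_of_nonneg_right this (by linarith)
    linarith

/-- the numbers in `v = log V` -/
theorem ev_v (e : ℝ) (he : 0 < e) (he4 : e ≤ 1 / 4) : ∀ᶠ v : ℝ in atTop,
    1 ≤ v ∧ 3 * (v ^ (2 + e / 2) + 1) ≤ v ^ (2 + e) ∧ 7 ≤ v ^ (2 + e / 2) ∧
    ∀ y : ℕ, v ^ (2 + e / 2) ≤ y → (y : ℝ) ≤ v ^ (2 + e / 2) + 1 →
      8 * Real.exp v * (2 + 2 * y) ^ 2 < Real.exp (Real.sqrt y / (8 * Real.log y)) := by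
  have e1 : ∀ᶠ v : ℝ in atTop, 6 ≤ v ^ (e / 2) := (tendsto_rpow_atTop (by positivity)).eventually_ge_atTop 6
  have e2 : ∀ᶠ v : ℝ in atTop, ‖Real.log v‖ ≤ (1 / 49) * ‖v ^ (e / 4)‖ :=
    (isLittleO_log_rpow_atTop (by positivity : (0 : ℝ) < e / 4)).bound (by norm_num)
  have e3 : ∀ᶠ v : ℝ in atTop, ‖v ^ (6 : ℝ)‖ ≤ (1 / 128 : ℝ) * ‖Real.exp v‖ := by
    have := (isLittleO_rpow_exp_atTop (6 : ℝ)).bound (by norm_num : (0 : ℝ) < 1 / 128)
    exact this
  filter_upwards [e1, e2, e3, eventually_ge_atTop (7 : ℝ)] with v k1 k2 k3 k4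
  have hv0 : 0 < v := by linarith
  have hv1 : 1 ≤ v := by linarith
  have hlogv : 0 < Real.log v := Real.log_pos (by linarith)
  rw [Real.norm_eq_abs, Real.norm_eq_abs, abs_of_pos hlogv, abs_of_nonneg (by positivity)] at k2
  rw [Real.norm_eq_abs, Real.norm_eq_abs, abs_of_nonneg (by positivity), abs_of_pos (Real.exp_pos _)] at k3
  have hW1 : v ≤ v ^ (2 + e / 2) := by
    calc v = v ^ (1 : ℝ) := (Real.rpow_one v).symm
      _ ≤ _ := Real.rpow_le_rpow_of_exponent_le hv1 (by linarith)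
  have hW3 : v ^ (2 + e / 2) + 1 ≤ v ^ (3 : ℝ) := by
    have q1 : v ^ (2 + e / 2) ≤ v ^ (5 / 2 : ℝ) := Real.rpow_le_rpow_of_exponent_le hv1 (by linarith)
    have q2 : v ^ (3 : ℝ) = v ^ (5 / 2 : ℝ) * Real.sqrt v := by
      rw [Real.sqrt_eq_rpow, ← Real.rpow_add hv0]
      norm_num
    have q3 : 2 ≤ Real.sqrt v := by
      apply Real.le_sqrt_of_sq_le
      linarith
    have q4 : 1 ≤ v ^ (5 / 2 : ℝ) := Real.one_le_rpow hv1 (by norm_num)
    rw [q2]
    nlinarith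
  refine ⟨hv1, ?_, by linarith, ?_⟩
  · have q1 : v ^ (2 + e) = v ^ (2 + e / 2) * v ^ (e / 2) := by
      rw [← Real.rpow_add hv0]
      congr 1
      ring
    have q2 : 1 ≤ v ^ (2 + e / 2) := Real.one_le_rpow hv1 (by positivity)
    rw [q1]
    nlinarith
  · intro y hy1 hy2
    have hy7 : (7 : ℝ) ≤ y := by linarith
    have hy0 : (0 : ℝ) < y := by linarith
    have hy3 : (y : ℝ) ≤ v ^ (3 : ℝ) := hy2.trans hW3
    have hlogy : 0 < Real.log y := Real.log_pos (by linarith)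
    have hlogy3 : Real.log y ≤ 3 * Real.log v := by
      rw [← Real.log_rpow hv0]
      exact Real.log_le_log hy0 hy3
    have hsq : v ^ (1 + e / 4) ≤ Real.sqrt y := by
      apply Real.le_sqrt_of_sq_le
      calc (v ^ (1 + e / 4)) ^ 2 = v ^ (2 + e / 2) := by
            rw [← Real.rpow_natCast (v ^ (1 + e / 4)) 2, ← Real.rpow_mul hv0.le]
            congr 1
            push_cast
            ring
        _ ≤ y := hy1
    have hexp : 2 * v ≤ Real.sqrt y / (8 * Real.log y) := by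
      rw [le_div_iff₀ (by positivity)]
      calc 2 * v * (8 * Real.log y) ≤ 2 * v * (8 * (3 * Real.log v)) := by gcongr
        _ = v * (48 * Real.log v) := by ring
        _ ≤ v * v ^ (e / 4) := by
            apply mul_le_mul_of_nonneg_left _ hv0.le
            linarith
        _ = v ^ (1 + e / 4) := by rw [Real.rpow_add hv0, Real.rpow_one]
        _ ≤ Real.sqrt y := hsq
    have hpoly : 8 * (2 + 2 * (y : ℝ)) ^ 2 < Real.exp v := by
      have q1 : 2 + 2 * (y : ℝ) ≤ 3 * v ^ (3 : ℝ) := by linarith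
      have q2 : (v ^ (3 : ℝ)) ^ 2 = v ^ (6 : ℝ) := by
        rw [← Real.rpow_natCast (v ^ (3 : ℝ)) 2, ← Real.rpow_mul hv0.le]
        norm_num
      have q3 : (2 + 2 * (y : ℝ)) ^ 2 ≤ 9 * v ^ (6 : ℝ) := by
        calc (2 + 2 * (y : ℝ)) ^ 2 ≤ (3 * v ^ (3 : ℝ)) ^ 2 := pow_le_pow_left₀ (by positivity) q1 2
          _ = 9 * v ^ (6 : ℝ) := by rw [mul_pow, q2]; norm_num
      have q4 : 0 < v ^ (6 : ℝ) := by positivity
      linarith
    calc 8 * Real.exp v * (2 + 2 * (y : ℝ)) ^ 2 = Real.exp v * (8 * (2 + 2 * (y : ℝ)) ^ 2) := by ring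
      _ < Real.exp v * Real.exp v := mul_lt_mul_of_pos_left hpoly (Real.exp_pos _)
      _ = Real.exp (2 * v) := by rw [← Real.exp_add]; ring_nf
      _ ≤ _ := Real.exp_le_exp.2 hexp

/-- large values, uniformly in `V` -/
theorem lvV (e : ℝ) (he : 0 < e) (he4 : e ≤ 1 / 4) : ∃ V1 H1 : ℝ, ∀ H : ℝ, H1 ≤ H → ∀ V : ℝ, V1 ≤ V →
    V ≤ Real.exp (Real.log H ^ (1 / 2 - e)) → ∀ U : ℝ,
    ENNReal.ofReal (H * Real.exp (-(Real.log V) ^ (2 + e))) ≤ volume {t : ℝ | U ≤ t ∧ t ≤ U + H ∧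
      (∃ n : ℕ, 1 ≤ n ∧ (n : ℝ) ≤ H ^ (1 / 8 : ℝ) ∧ V * Real.sqrt n < ‖Sw muc t n‖) ∧
      ∃ n : ℕ, 1 ≤ n ∧ (n : ℝ) ≤ H ^ (1 / 8 : ℝ) ∧ V * Real.sqrt n < ‖Sw lac t n‖} := by
  obtain ⟨y0, hy0⟩ := Filter.eventually_atTop.1 py_ge
  have e0 : ∀ᶠ v : ℝ in atTop, (y0 : ℝ) ≤ v := eventually_ge_atTop _
  obtain ⟨v1, hv1⟩ := Filter.eventually_atTop.1 ((ev_v e he he4).and e0)
  have tl : Tendsto (fun H : ℝ => Real.log H) atTop atTop := Real.tendsto_log_atTop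
  have e5 : ∀ᶠ L : ℝ in atTop, L ^ (1 - e) + 1 ≤ L / 16 := by
    filter_upwards [(tendsto_rpow_atTop he).eventually_ge_atTop 32, eventually_ge_atTop (1 : ℝ)] with L q1 q2
    have hL0 : 0 < L := by linarith
    have q3 : L ^ (1 - e) * L ^ e = L := by
      rw [← Real.rpow_add hL0]
      simp
    have q4 : 1 ≤ L ^ (1 - e) := Real.one_le_rpow q2 (by linarith)
    nlinarith
  obtain ⟨H1, hH1⟩ := Filter.eventually_atTop.1 ((tl.eventually e5).and ((tl.eventually_ge_atTop 1).and (eventually_ge_atTop (16 : ℝ))))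
  refine ⟨Real.exp v1, H1, fun H hH V hV hVH U => ?_⟩
  obtain ⟨k1, k2, k3⟩ := hH1 H hH
  have hV0 : 0 < V := (Real.exp_pos _).trans_le hV
  set v : ℝ := Real.log V with hv
  have hvv : v1 ≤ v := by
    rw [hv, Real.le_log_iff_exp_le hV0]
    exact hV
  have hVexp : Real.exp v = V := Real.exp_log hV0
  obtain ⟨⟨w0, w1, w2, w3⟩, w4⟩ := hv1 v hvv
  set W : ℝ := v ^ (2 + e / 2) with hW
  have hv0 : 0 < v := by linarith
  have hW0 : 0 ≤ W := by positivity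
  set y : ℕ := ⌈W⌉₊ with hy
  have hyW : W ≤ y := Nat.le_ceil W
  have hyW1 : (y : ℝ) ≤ W + 1 := (Nat.ceil_lt_add_one hW0).le
  have hyy0 : y0 ≤ y := by
    have q1 : v ≤ W := by
      calc v = v ^ (1 : ℝ) := (Real.rpow_one v).symm
        _ ≤ _ := Real.rpow_le_rpow_of_exponent_le w0 (by linarith)
    have q2 : (y0 : ℝ) ≤ y := by linarith
    exact_mod_cast q2
  have hyL : (y : ℝ) ≤ Real.log H / 16 := by
    have q1 : v ≤ Real.log H ^ (1 / 2 - e) := by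
      have := Real.log_le_log hV0 hVH
      rwa [Real.log_exp] at this
    have q2 : W ≤ Real.log H ^ (1 - e) := by
      calc W ≤ (Real.log H ^ (1 / 2 - e)) ^ (2 + e / 2) := Real.rpow_le_rpow hv0.le q1 (by positivity)
        _ = Real.log H ^ ((1 / 2 - e) * (2 + e / 2)) := by rw [← Real.rpow_mul (by linarith)]
        _ ≤ Real.log H ^ (1 - e) := Real.rpow_le_rpow_of_exponent_le k2 (by nlinarith)
    linarith
  have hy7 : 7 ≤ y := by
    have : (7 : ℝ) ≤ y := w2.trans hyW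
    exact_mod_cast this
  have hg : 8 * V * (2 + 2 * y) ^ 2 < Py y := by
    rw [← hVexp]
    exact (w3 y hyW hyW1).trans_le (hy0 y hyy0)
  refine le_trans ?_ (one_y k3 hyL hy7 hV0 hg)
  apply ENNReal.ofReal_le_ofReal
  apply mul_le_mul_of_nonneg_left _ (by linarith)
  apply Real.exp_le_exp.2
  linarith

end Pool.Agent.Helper66.LV
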