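import Pool.Agent.Helper66.LV.LV
import Pool.Agent.Helper56.LV.FL

/-!
# MP_a499ba_nt, large values of the imaginary twists, on compact sets of `t`
-/

set_option autoImplicit false

namespace Pool.Agent.Helper66.LV

open MeasureTheory Filter Topology Pool.Agent.IT

/-- block LV with a compact set -/
theorem lvc_of
    (hLM : ∀ (t B : ℝ) (n : ℕ), 0 ≤ B → (∀ m : ℕ, 1 ≤ m → m ≤ n → ‖Sw muc t m‖ ≤ B * Real.sqrt m) →
      ‖Sw lac t n‖ ≤ B * Real.sqrt n * (1 + Real.log n))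
    (hAB : ∀ (a : ℕ → ℂ) (t B : ℝ) (N : ℕ), 1 ≤ N → 0 ≤ B → (∀ n : ℕ, 1 ≤ n → n ≤ N → ‖Sw a t n‖ ≤ B * Real.sqrt n) →
      ‖Dn a N t‖ ≤ B * (2 + Real.log N))
    (hPL : ∀ᶠ y : ℕ in atTop, Real.exp (Real.sqrt y / (8 * Real.log y)) ≤ Py y)
    (hZ : ∀ y : ℕ, Zy y ≤ 2 ^ y) (hD : ∀ y N : ℕ, primorial y ≤ N → Diag y N)
    (ε : ℝ) (hε : 0 < ε) : ∃ c : ℝ, 0 < c ∧ ∃ H0 : ℝ, ∀ H : ℝ, H0 ≤ H → ∀ U : ℝ,
    ∃ A : Set ℝ, IsCompact A ∧ A ⊆ Set.Icc U (U + H) ∧ ENNReal.ofReal (H ^ (1 - ε)) ≤ volume A ∧ ∀ t ∈ A,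
      (∃ n : ℕ, 1 ≤ n ∧ (n : ℝ) ≤ H ^ (1 / 8 : ℝ) ∧
        Real.exp (c * Real.sqrt (Real.log H) / Real.log (Real.log H)) * Real.sqrt n < ‖Sw muc t n‖) ∧
      ∃ n : ℕ, 1 ≤ n ∧ (n : ℝ) ≤ H ^ (1 / 8 : ℝ) ∧
        Real.exp (c * Real.sqrt (Real.log H) / Real.log (Real.log H)) * Real.sqrt n < ‖Sw lac t n‖ := by
  set η : ℝ := min (1 / 16) (ε / 4) with hη
  have hη0 : 0 < η := by positivity
  have hη1 : η ≤ 1 / 16 := min_le_left _ _
  have hη2 : η ≤ ε / 4 := min_le_right _ _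
  set c : ℝ := Real.sqrt (η / 2) / 16 with hc
  have hc0 : 0 < c := by positivity
  refine ⟨c, hc0, ?_⟩
  have tl : Tendsto (fun H : ℝ => Real.log H) atTop atTop := Real.tendsto_log_atTop
  have ty : Tendsto (fun H : ℝ => ⌊η * Real.log H⌋₊) atTop atTop := tendsto_nat_floor_atTop.comp (tl.const_mul_atTop hη0)
  have e1 : ∀ᶠ H : ℝ in atTop, Real.exp (Real.sqrt ⌊η * Real.log H⌋₊ / (8 * Real.log ⌊η * Real.log H⌋₊)) ≤ Py ⌊η * Real.log H⌋₊ :=
    ty.eventually hPL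
  have e2 : ∀ᶠ H : ℝ in atTop, 8 * (2 + Real.log H) ^ 2 < Real.exp (c * Real.sqrt (Real.log H) / Real.log (Real.log H)) :=
    tl.eventually (order_cmp hc0)
  have e3 : ∀ᶠ H : ℝ in atTop, 2 ≤ η * Real.log H := (tl.const_mul_atTop hη0).eventually_ge_atTop 2
  have e4 : ∀ᶠ H : ℝ in atTop, 32 * (1 + Real.log H) ≤ H ^ (ε / 2) := by
    have h1 : ∀ᶠ H : ℝ in atTop, ‖Real.log H‖ ≤ (1 / 64) * ‖H ^ (ε / 2)‖ :=
      (isLittleO_log_rpow_atTop (by positivity : (0 : ℝ) < ε / 2)).bound (by norm_num)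
    have h2 : ∀ᶠ H : ℝ in atTop, 64 ≤ H ^ (ε / 2) := (tendsto_rpow_atTop (by positivity)).eventually_ge_atTop 64
    filter_upwards [h1, h2, eventually_ge_atTop (1 : ℝ)] with H k1 k2 k3
    rw [Real.norm_eq_abs, Real.norm_eq_abs, abs_of_nonneg (Real.log_nonneg k3), abs_of_nonneg (by positivity)] at k1
    linarith
  obtain ⟨H0, h0⟩ := Filter.eventually_atTop.1 (e1.and (e2.and (e3.and (e4.and (eventually_ge_atTop (16 : ℝ))))))
  refine ⟨H0, fun H hH U => ?_⟩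
  obtain ⟨k1, k2, k3, k4, k5⟩ := h0 H hH
  have hH0 : (0 : ℝ) < H := by linarith
  have hH1 : (1 : ℝ) ≤ H := by linarith
  have hlog : 0 ≤ Real.log H := Real.log_nonneg hH1
  obtain ⟨p1, p2, p3, p4⟩ := params hη0 hη1 k5 hZ
  set y : ℕ := ⌊η * Real.log H⌋₊ with hy
  set N : ℕ := ⌊H ^ (1 / 8 : ℝ)⌋₊ with hN
  have hN1 : 1 ≤ N := le_trans (primorial_pos y) p1
  have hNle : (N : ℝ) ≤ H ^ (1 / 8 : ℝ) := Nat.floor_le (by positivity)
  have hNH : (N : ℝ) ≤ H := hNle.trans (by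
    calc H ^ (1 / 8 : ℝ) ≤ H ^ (1 : ℝ) := Real.rpow_le_rpow_of_exponent_le hH1 (by norm_num)
      _ = H := Real.rpow_one H)
  have hN0 : (1 : ℝ) ≤ N := by exact_mod_cast hN1
  have hlogN : Real.log N ≤ Real.log H := Real.log_le_log (by linarith) hNH
  have hlogN0 : 0 ≤ Real.log N := Real.log_nonneg hN0
  have hcore := pz_core (hD y N p1) hN1 (U := U) hH0 p2 p3
  set Vs : Set ℝ := {t : ℝ | U ≤ t ∧ t ≤ U + H ∧ Py y / 8 ≤ ‖Dn lac N t‖} with hVs
  -- the measure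
  have hmeas : H ^ (1 - ε) ≤ (volume Vs).toReal := by
    have v0 : 0 ≤ (volume Vs).toReal := ENNReal.toReal_nonneg
    have m1 : H ≤ H ^ ε * (volume Vs).toReal := by
      calc H ≤ 32 * Zy y ^ 2 * (1 + Real.log N) * (volume Vs).toReal := hcore
        _ ≤ 32 * H ^ (2 * η) * (1 + Real.log H) * (volume Vs).toReal := by gcongr
        _ = H ^ (2 * η) * (32 * (1 + Real.log H)) * (volume Vs).toReal := by ring
        _ ≤ H ^ (ε / 2) * H ^ (ε / 2) * (volume Vs).toReal := by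
            gcongr
            linarith
        _ = H ^ ε * (volume Vs).toReal := by
            rw [← Real.rpow_add hH0]
            ring_nf
    have m2 : H ^ (1 - ε) * H ^ ε = H := by
      rw [← Real.rpow_add hH0]
      simp
    have m3 : 0 < H ^ ε := by positivity
    have m4 : H ^ (1 - ε) * H ^ ε ≤ (volume Vs).toReal * H ^ ε := by
      rw [m2]
      linarith
    exact le_of_mul_le_mul_right m4 m3
  have hVc : Vs = Set.Icc U (U + H) ∩ {t : ℝ | Py y / 8 ≤ ‖Dn lac N t‖} := by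
    ext t
    constructor
    · rintro ⟨a1, a2, a3⟩
      exact ⟨⟨a1, a2⟩, a3⟩
    · rintro ⟨⟨a1, a2⟩, a3⟩
      exact ⟨a1, a2, a3⟩
  refine ⟨Vs, ?_, ?_, ENNReal.ofReal_le_of_le_toReal hmeas, ?_⟩
  · rw [hVc]
    exact isCompact_Icc.inter_right (isClosed_le continuous_const (Dn_cont lac N).norm)
  · rw [hVc]
    exact Set.inter_subset_left
  -- the values
  set B : ℝ := Real.exp (c * Real.sqrt (Real.log H) / Real.log (Real.log H)) with hB
  have hB0 : 0 < B := Real.exp_pos _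
  have hyr : η * Real.log H / 2 ≤ (y : ℝ) := by
    have := Nat.lt_floor_add_one (η * Real.log H)
    linarith
  have hyle : (y : ℝ) ≤ η * Real.log H := Nat.floor_le (by positivity)
  have hy1 : (1 : ℝ) ≤ (y : ℝ) := by linarith
  have hy2 : (2 : ℝ) ≤ (y : ℝ) := by
    have : 2 ≤ y := Nat.le_floor (by exact_mod_cast k3)
    exact_mod_cast this
  have hlogy : 0 < Real.log y := Real.log_pos (by linarith)
  have hylog : (y : ℝ) ≤ Real.log H := by nlinarith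
  have hll : Real.log y ≤ Real.log (Real.log H) := Real.log_le_log (by linarith) hylog
  have hBig : B * B ≤ Py y := by
    refine le_trans ?_ k1
    rw [hB, ← Real.exp_add]
    apply Real.exp_le_exp.2
    have s1 : Real.sqrt (η / 2) * Real.sqrt (Real.log H) ≤ Real.sqrt y := by
      rw [← Real.sqrt_mul (by positivity)]
      apply Real.sqrt_le_sqrt
      linarith
    have s2 : 16 * (2 * (c * Real.sqrt (Real.log H))) = 2 * (Real.sqrt (η / 2) * Real.sqrt (Real.log H)) := by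
      rw [hc]
      ring
    calc c * Real.sqrt (Real.log H) / Real.log (Real.log H) + c * Real.sqrt (Real.log H) / Real.log (Real.log H) =
          2 * (c * Real.sqrt (Real.log H)) / Real.log (Real.log H) := by ring
      _ ≤ 2 * (c * Real.sqrt (Real.log H)) / Real.log y := by
          apply div_le_div_of_nonneg_left _ hlogy hll
          positivity
      _ ≤ (Real.sqrt y / 8) / Real.log y := by
          apply div_le_div_of_nonneg_right _ hlogy.le
          linarith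
      _ = Real.sqrt y / (8 * Real.log y) := by rw [div_div]
  have hfin : B * (1 + Real.log N) * (2 + Real.log N) < Py y / 8 := by
    have f1 : (1 + Real.log N) * (2 + Real.log N) ≤ (2 + Real.log H) ^ 2 := by nlinarith
    have f2 : 8 * ((1 + Real.log N) * (2 + Real.log N)) < B := by linarith
    have f3 : B * (8 * ((1 + Real.log N) * (2 + Real.log N))) < B * B := mul_lt_mul_of_pos_left f2 hB0
    linarith
  rintro t ⟨-, -, t3⟩
  refine ⟨?_, ?_⟩
  · by_contra hno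
    push Not at hno
    have g1 : ∀ m : ℕ, 1 ≤ m → m ≤ N → ‖Sw muc t m‖ ≤ B * Real.sqrt m := fun m hm hmN =>
      hno m hm (le_trans (by exact_mod_cast hmN) hNle)
    have g2 : ∀ n : ℕ, 1 ≤ n → n ≤ N → ‖Sw lac t n‖ ≤ (B * (1 + Real.log N)) * Real.sqrt n := by
      intro n hn hnN
      refine (hLM t B n hB0.le fun m hm hmn => g1 m hm (hmn.trans hnN)).trans ?_
      have hlg : Real.log n ≤ Real.log N := Real.log_le_log (by exact_mod_cast hn) (by exact_mod_cast hnN)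
      calc B * Real.sqrt n * (1 + Real.log n) ≤ B * Real.sqrt n * (1 + Real.log N) := by gcongr
        _ = _ := by ring
    have g3 := hAB lac t (B * (1 + Real.log N)) N hN1 (by positivity) g2
    linarith
  · by_contra hno
    push Not at hno
    have g2 : ∀ n : ℕ, 1 ≤ n → n ≤ N → ‖Sw lac t n‖ ≤ B * Real.sqrt n := fun m hm hmN =>
      hno m hm (le_trans (by exact_mod_cast hmN) hNle)
    have g3 := hAB lac t B N hN1 hB0.le g2
    have g4 : B * (2 + Real.log N) ≤ B * (1 + Real.log N) * (2 + Real.log N) := by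
      have : B ≤ B * (1 + Real.log N) := le_mul_of_one_le_right hB0.le (by linarith)
      exact mul_le_mul_of_nonneg_right this (by linarith)
    linarith

/-- block FL with a compact set -/
theorem flc_of (hlv : ∀ ε : ℝ, 0 < ε → ∃ c : ℝ, 0 < c ∧ ∃ H0 : ℝ, ∀ H : ℝ, H0 ≤ H → ∀ U : ℝ,
    ∃ A : Set ℝ, IsCompact A ∧ A ⊆ Set.Icc U (U + H) ∧ ENNReal.ofReal (H ^ (1 - ε)) ≤ volume A ∧ ∀ t ∈ A,
      (∃ n : ℕ, 1 ≤ n ∧ (n : ℝ) ≤ H ^ (1 / 8 : ℝ) ∧
        Real.exp (c * Real.sqrt (Real.log H) / Real.log (Real.log H)) * Real.sqrt n < ‖Sw muc t n‖) ∧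
      ∃ n : ℕ, 1 ≤ n ∧ (n : ℝ) ≤ H ^ (1 / 8 : ℝ) ∧
        Real.exp (c * Real.sqrt (Real.log H) / Real.log (Real.log H)) * Real.sqrt n < ‖Sw lac t n‖)
    {C1 C2 : ℝ} (h1 : ∀ t : ℝ, 10 ≤ |t| → DgW muc C1 t) (h2 : ∀ t : ℝ, 10 ≤ |t| → DgW lac C2 t)
    (ε : ℝ) (hε : 0 < ε) : ∃ c : ℝ, 0 < c ∧ ∃ H0 : ℝ, ∀ H : ℝ, H0 ≤ H → ∀ U : ℝ,
    ∃ A : Set ℝ, IsCompact A ∧ A ⊆ Set.Icc U (U + H) ∧ ENNReal.ofReal (H ^ (1 - ε)) ≤ volume A ∧ ∀ t ∈ A,
      ExW muc (Real.exp (c * Real.sqrt (Real.log H) / Real.log (Real.log H))) t ∧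
      ExW lac (Real.exp (c * Real.sqrt (Real.log H) / Real.log (Real.log H))) t := by
  have hpi := Real.pi_pos
  have hpi3 := Real.pi_gt_three
  have hpi4 := Real.pi_lt_four
  set e : ℝ := min ε (1 / 4) with he
  have he0 : 0 < e := lt_min hε (by norm_num)
  have he1 : e ≤ ε := min_le_left _ _
  have he2 : e ≤ 1 / 4 := min_le_right _ _
  obtain ⟨c, hc, H1, hH1⟩ := hlv (e / 2) (by positivity)
  have t1 : Tendsto (fun H : ℝ => H ^ (e / 2)) atTop atTop := tendsto_rpow_atTop (by positivity)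
  have t2 : Tendsto (fun H : ℝ => H ^ (1 / 4 : ℝ)) atTop atTop := tendsto_rpow_atTop (by norm_num)
  obtain ⟨H2, hH2⟩ := Filter.eventually_atTop.1 (((gain_tendsto (half_pos hc) (max 1 (6 + 2 * max |C1| |C2|))).and
    (t1.eventually_ge_atTop 2)).and ((t2.eventually_ge_atTop 32).and (eventually_ge_atTop 1)))
  refine ⟨c / 2, half_pos hc, max H1 H2, fun H hH U => ?_⟩
  obtain ⟨⟨k1, k2⟩, k3, k4⟩ := hH2 H ((le_max_right _ _).trans hH)
  obtain ⟨A, a1, a2, a3, a4⟩ := hH1 H ((le_max_left _ _).trans hH) U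
  set B : ℝ := Real.exp (c / 2 * Real.sqrt (Real.log H) / Real.log (Real.log H)) with hB
  have hB2 : Real.exp (c * Real.sqrt (Real.log H) / Real.log (Real.log H)) = B ^ 2 := by
    rw [hB, ← Real.exp_nat_mul]
    congr 1
    push_cast
    ring
  rw [hB2] at a4
  have hB1 : 1 ≤ B := (le_max_left _ _).trans k1
  have hBC : 6 + 2 * max |C1| |C2| ≤ B := (le_max_right _ _).trans k1
  have hBC1 : 6 + 2 * |C1| ≤ B := by linarith [le_max_left |C1| |C2|]
  have hBC2 : 6 + 2 * |C2| ≤ B := by linarith [le_max_right |C1| |C2|]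
  have hs1 : 1 ≤ Real.sqrt H := by rw [Real.one_le_sqrt]; exact k4
  set r : ℝ := 2 * Real.pi * (Real.sqrt H + 1) with hr
  have hr10 : 10 ≤ r := by rw [hr]; nlinarith
  have hsub : A ⊆ Set.Icc (-r) r ∪ (A ∩ {t : ℝ | r ≤ |t|}) := by
    intro t ht
    by_cases hsm : |t| ≤ r
    · left
      exact Set.mem_Icc.2 (abs_le.1 hsm)
    · right
      exact ⟨ht, (not_le.1 hsm).le⟩
  have hm := a3.trans ((measure_mono hsub).trans (measure_union_le _ _))
  rw [Real.volume_Icc] at hm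
  have hr0 : 0 ≤ r - -r := by linarith
  -- the numbers
  have hnum : (r - -r) + H ^ (1 - ε) ≤ H ^ (1 - e / 2) := by
    have q1 : H ^ (1 - ε) ≤ H ^ (1 - e) := Real.rpow_le_rpow_of_exponent_le k4 (by linarith)
    have q2 : H ^ (1 - e / 2) = H ^ (1 - e) * H ^ (e / 2) := by
      rw [← Real.rpow_add (by linarith)]
      congr 1
      ring
    have q3 : H ^ (3 / 4 : ℝ) ≤ H ^ (1 - e) := Real.rpow_le_rpow_of_exponent_le k4 (by linarith)
    have q4 : H ^ (3 / 4 : ℝ) = Real.sqrt H * H ^ (1 / 4 : ℝ) := by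
      rw [Real.sqrt_eq_rpow, ← Real.rpow_add (by linarith)]
      norm_num
    have q5 : r - -r ≤ 32 * Real.sqrt H := by rw [hr]; nlinarith
    have q6 : 32 * Real.sqrt H ≤ H ^ (3 / 4 : ℝ) := by
      rw [q4, mul_comm]
      exact mul_le_mul_of_nonneg_left k3 (Real.sqrt_nonneg _)
    have q7 : 0 ≤ H ^ (1 - e) := Real.rpow_nonneg (by linarith) _
    rw [q2]
    nlinarith
  have h0 : 0 ≤ H ^ (1 - ε) := Real.rpow_nonneg (by linarith) _
  have hm2 : ENNReal.ofReal (r - -r) + ENNReal.ofReal (H ^ (1 - ε)) ≤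
      ENNReal.ofReal (r - -r) + volume (A ∩ {t : ℝ | r ≤ |t|}) := by
    rw [← ENNReal.ofReal_add hr0 h0]
    exact (ENNReal.ofReal_le_ofReal hnum).trans hm
  refine ⟨A ∩ {t : ℝ | r ≤ |t|}, a1.inter_right (isClosed_le continuous_const continuous_abs), Set.inter_subset_left.trans a2,
    (ENNReal.add_le_add_iff_left ENNReal.ofReal_ne_top).1 hm2, ?_⟩
  rintro t ⟨ht, htr⟩
  have htr' : r ≤ |t| := htr
  obtain ⟨ht3, ht4⟩ := a4 t ht
  exact ⟨core_fl2 hB1 hBC1 (h1 t (by linarith)) k4 htr' ht3, core_fl2 hB1 hBC2 (h2 t (by linarith)) k4 htr' ht4⟩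

end Pool.Agent.Helper66.LV
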