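import Pool.Agent.Helper66.LV.LVV
import Pool.Agent.Helper56.LV.FL
import Pool.Agent.Helper56.IT.Near

/-!
# MP_a499ba_nt, large values of the imaginary twists: from `t` to all near `s`
-/

set_option autoImplicit false

namespace Pool.Agent.Helper66.LV

open MeasureTheory Filter Topology Pool.Agent.IT

/-- the link, with all near `s` -/
theorem link {a : ℕ → ℂ} {C V H t s : ℝ} (hV : 1 ≤ V) (hD : DgW a C s) (hst : |s - t| ≤ V)
    (ht : 2 * Real.pi * (Real.sqrt H + 1) + V ≤ |t|)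
    (hP : ∃ n : ℕ, 1 ≤ n ∧ (n : ℝ) ≤ Real.sqrt H ∧ 8 * (3 + 2 * |C|) * V * Real.sqrt n < ‖Sw a t n‖) :
    ExW a (V / (1 + |s - t|)) s := by
  by_contra hnot
  obtain ⟨n, hn, hnH, hlt⟩ := hP
  have hpi := Real.pi_pos
  have hx0 : 0 ≤ |s - t| := abs_nonneg _
  have hB0 : 0 < V / (1 + |s - t|) := by positivity
  have hB1 : 1 / 2 ≤ V / (1 + |s - t|) := by
    rw [le_div_iff₀ (by positivity)]
    linarith
  set B : ℝ := V / (1 + |s - t|) with hB
  have hs : 2 * Real.pi * (Real.sqrt H + 1) ≤ |s| := by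
    have h1 : |t| ≤ |s| + |s - t| := by
      calc |t| = |s - (s - t)| := by congr 1; ring
        _ ≤ |s| + |s - t| := abs_sub _ _
    linarith
  have hC : ∀ m : ℕ, 1 ≤ m → (m : ℝ) ≤ Real.sqrt H → ‖Sw a s m‖ ≤ (2 * (3 + 2 * |C|) * B) * Real.sqrt m := by
    intro m hm hmH
    refine (core_fl hB0.le hD hnot m hm ?_).trans ?_
    · refine le_trans ?_ hs
      apply mul_le_mul_of_nonneg_left _ (by positivity)
      linarith
    · apply mul_le_mul_of_nonneg_right _ (Real.sqrt_nonneg _)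
      have := abs_nonneg C
      nlinarith
  have h2 := cmpN a (t := t) hC n hn hnH
  have h3 : (1 + 2 * |t - s|) * (2 * (3 + 2 * |C|) * B) ≤ 8 * (3 + 2 * |C|) * V := by
    rw [abs_sub_comm t s]
    have h4 : (1 + 2 * |s - t|) * B ≤ 2 * V := by
      have h5 : B * (1 + |s - t|) = V := div_mul_cancel₀ _ (by positivity)
      nlinarith
    have := abs_nonneg C
    calc (1 + 2 * |s - t|) * (2 * (3 + 2 * |C|) * B) = (2 * (3 + 2 * |C|)) * ((1 + 2 * |s - t|) * B) := by ring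
      _ ≤ (2 * (3 + 2 * |C|)) * (2 * V) := mul_le_mul_of_nonneg_left h4 (by positivity)
      _ ≤ 8 * (3 + 2 * |C|) * V := by nlinarith
  have h6 : (1 + 2 * |t - s|) * (2 * (3 + 2 * |C|) * B) * Real.sqrt n ≤ 8 * (3 + 2 * |C|) * V * Real.sqrt n :=
    mul_le_mul_of_nonneg_right h3 (Real.sqrt_nonneg _)
  linarith

end Pool.Agent.Helper66.LV
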