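import Pool.Agent.Helper66.LV.PZ0

/-!
# MP_a499ba_nt, large values of the imaginary twists: Paley-Zygmund with the resonator, the core
-/

set_option autoImplicit false

namespace Pool.Agent.Helper66.LV

open MeasureTheory Filter Pool.Agent.IT

/-- the diagonal of (B) -/
def Diag (y N : ℕ) : Prop :=
  ∑ x ∈ (primorial y).divisors ×ˢ Finset.Icc 1 N, ∑ e ∈ (primorial y).divisors,
      (if x.1 * x.2 = e then lac x.1 * (lac x.2 * (((x.2 : ℝ) ^ (-(1 / 2) : ℝ) : ℝ) : ℂ)) * (starRingEnd ℂ) (lac e) else 0) =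
      ((Zy y * Py y : ℝ) : ℂ)

/-- (B) -/
theorem int_B {y N : ℕ} (hd : Diag y N) (hN : 1 ≤ N) {U H : ℝ} (hH : 0 ≤ H)
    (h1 : 4 * (primorial y : ℝ) * Zy y * (N : ℝ) ^ 2 ≤ H) :
    H * Zy y * Py y / 2 ≤ ∫ t in U..(U + H), ‖Rn y t‖ ^ 2 * ‖Dn lac N t‖ := by
  have hb := bil ((primorial y).divisors ×ˢ Finset.Icc 1 N) (primorial y).divisors (fun x => x.1 * x.2) (fun e => e)
    (fun x => lac x.1 * (lac x.2 * (((x.2 : ℝ) ^ (-(1 / 2) : ℝ) : ℝ) : ℂ))) lac (M := (primorial y : ℝ) * N) (U := U) (H := H)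
    (fun x hx => by
      obtain ⟨k1, k2⟩ := Finset.mem_product.1 hx
      have k3 := (Finset.mem_Icc.1 k2)
      refine ⟨Nat.mul_pos (one_le_of_dvd k1) k3.1, ?_⟩
      push_cast
      exact mul_le_mul (le_of_dvd k1) (by exact_mod_cast k3.2) (Nat.cast_nonneg _) (Nat.cast_nonneg _))
    (fun e he => ⟨one_le_of_dvd he, (le_of_dvd he).trans (le_mul_of_one_le_right (Nat.cast_nonneg _) (by exact_mod_cast hN))⟩)
  have hZ := zy_pos y
  have hP1 := py_one y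
  have hN0 : (1 : ℝ) ≤ N := by exact_mod_cast hN
  have hPp : (0 : ℝ) ≤ primorial y := Nat.cast_nonneg _
  have hs1 : ∑ d ∈ (primorial y).divisors, ‖lac d‖ ≤ Zy y := by
    unfold Zy
    calc ∑ d ∈ (primorial y).divisors, ‖lac d‖ ≤ ∑ d ∈ (primorial y).divisors, (1 : ℝ) :=
          Finset.sum_le_sum fun d _ => norm_lac_le d
      _ = _ := by simp
  have hs2 : ∑ x ∈ (primorial y).divisors ×ˢ Finset.Icc 1 N, ‖lac x.1 * (lac x.2 * (((x.2 : ℝ) ^ (-(1 / 2) : ℝ) : ℝ) : ℂ))‖ ≤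
      Zy y * N := by
    calc ∑ x ∈ (primorial y).divisors ×ˢ Finset.Icc 1 N, ‖lac x.1 * (lac x.2 * (((x.2 : ℝ) ^ (-(1 / 2) : ℝ) : ℝ) : ℂ))‖ ≤
          ∑ x ∈ (primorial y).divisors ×ˢ Finset.Icc 1 N, (1 : ℝ) := by
          refine Finset.sum_le_sum fun x hx => ?_
          rw [norm_mul]
          calc ‖lac x.1‖ * ‖lac x.2 * (((x.2 : ℝ) ^ (-(1 / 2) : ℝ) : ℝ) : ℂ)‖ ≤ 1 * 1 :=
                mul_le_mul (norm_lac_le _) (norm_cf _ (Finset.mem_Icc.1 (Finset.mem_product.1 hx).2).1) (norm_nonneg _) zero_le_one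
            _ = 1 := one_mul 1
      _ = _ := by simp [Zy]
  have hint : ∀ t : ℝ, (∑ x ∈ (primorial y).divisors ×ˢ Finset.Icc 1 N,
      (lac x.1 * (lac x.2 * (((x.2 : ℝ) ^ (-(1 / 2) : ℝ) : ℝ) : ℂ))) * nit t (x.1 * x.2)) = Rn y t * Dn lac N t := by
    intro t
    unfold Rn Dn
    rw [Finset.sum_mul_sum, ← Finset.sum_product']
    refine Finset.sum_congr rfl fun x _ => ?_
    rw [nit_mul]
    ring
  simp only [hint] at hb
  rw [hd] at hb
  change ‖(∫ t in U..(U + H), Rn y t * Dn lac N t * (starRingEnd ℂ) (Rn y t)) - _‖ ≤ _ at hb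
  have h2 : ‖∫ t in U..(U + H), Rn y t * Dn lac N t * (starRingEnd ℂ) (Rn y t)‖ ≤
      ∫ t in U..(U + H), ‖Rn y t‖ ^ 2 * ‖Dn lac N t‖ := by
    refine (intervalIntegral.norm_integral_le_integral_norm (by linarith)).trans (le_of_eq ?_)
    congr 1
    funext t
    rw [norm_mul, norm_mul, RCLike.norm_conj]
    ring
  have h3 : H * (Zy y * Py y) - ‖∫ t in U..(U + H), Rn y t * Dn lac N t * (starRingEnd ℂ) (Rn y t)‖ ≤
      ‖(∫ t in U..(U + H), Rn y t * Dn lac N t * (starRingEnd ℂ) (Rn y t)) - (H : ℂ) * ((Zy y * Py y : ℝ) : ℂ)‖ := by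
    rw [norm_sub_rev]
    have : ‖(H : ℂ) * ((Zy y * Py y : ℝ) : ℂ)‖ = H * (Zy y * Py y) := by
      rw [← Complex.ofReal_mul, Complex.norm_real, Real.norm_eq_abs, abs_of_nonneg (by positivity)]
    calc _ = ‖(H : ℂ) * ((Zy y * Py y : ℝ) : ℂ)‖ - ‖∫ t in U..(U + H), Rn y t * Dn lac N t * (starRingEnd ℂ) (Rn y t)‖ := by rw [this]
      _ ≤ _ := norm_sub_norm_le _ _
  have h4 : 2 * ((primorial y : ℝ) * N) * (∑ x ∈ (primorial y).divisors ×ˢ Finset.Icc 1 N,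
      ‖lac x.1 * (lac x.2 * (((x.2 : ℝ) ^ (-(1 / 2) : ℝ) : ℝ) : ℂ))‖) * ∑ d ∈ (primorial y).divisors, ‖lac d‖ ≤
      2 * ((primorial y : ℝ) * N) * (Zy y * N) * Zy y :=
    mul_le_mul (mul_le_mul_of_nonneg_left hs2 (by positivity)) hs1 (Finset.sum_nonneg fun _ _ => norm_nonneg _) (by positivity)
  have h5 : 2 * ((primorial y : ℝ) * N) * (Zy y * N) * Zy y ≤ H * Zy y * Py y / 2 := by
    calc 2 * ((primorial y : ℝ) * N) * (Zy y * N) * Zy y = (4 * (primorial y : ℝ) * Zy y * (N : ℝ) ^ 2) * Zy y / 2 := by ring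
      _ ≤ H * Zy y / 2 := by
          have := mul_le_mul_of_nonneg_right h1 (by linarith : 0 ≤ Zy y)
          linarith
      _ ≤ H * Zy y * Py y / 2 := by
          have := mul_le_mul_of_nonneg_left hP1 (by positivity : 0 ≤ H * Zy y)
          linarith
  linarith

/-- the core -/
theorem pz_core {y N : ℕ} (hd : Diag y N) (hN : 1 ≤ N) {U H : ℝ} (hH : 0 < H)
    (h1 : 4 * (primorial y : ℝ) * Zy y * (N : ℝ) ^ 2 ≤ H) (h2 : 2 * (N : ℝ) ^ 3 ≤ H) :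
    H ≤ 32 * Zy y ^ 2 * (1 + Real.log N) * (volume {t : ℝ | U ≤ t ∧ t ≤ U + H ∧ Py y / 8 ≤ ‖Dn lac N t‖}).toReal := by
  have hZ := zy_pos y
  have hP1 := py_one y
  have hN0 : (1 : ℝ) ≤ N := by exact_mod_cast hN
  have hPp : (1 : ℝ) ≤ primorial y := by exact_mod_cast primorial_pos y
  have hL : 1 ≤ 1 + Real.log N := by linarith [Real.log_nonneg hN0]
  set L : ℝ := 1 + Real.log N with hLd
  set G : Set ℝ := {t : ℝ | Py y / 8 ≤ ‖Dn lac N t‖} with hG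
  have hGm : MeasurableSet G := (isClosed_le continuous_const (Dn_cont lac N).norm).measurableSet
  have hUH : U ≤ U + H := by linarith
  have hA : ∫ t in U..(U + H), ‖Rn y t‖ ^ 2 ≤ 2 * H * Zy y := by
    apply int_R
    have : (1 : ℝ) ≤ (N : ℝ) ^ 2 := one_le_pow₀ hN0
    have h3 : 4 * (primorial y : ℝ) * Zy y * 1 ≤ 4 * (primorial y : ℝ) * Zy y * (N : ℝ) ^ 2 :=
      mul_le_mul_of_nonneg_left this (by positivity)
    have h4 : 0 ≤ (primorial y : ℝ) * Zy y := by positivity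
    linarith
  have hC := int_D (U := U) hN h2
  have hB := int_B (U := U) hd hN hH.le h1
  -- the pointwise bound
  set κ : ℝ := 8 * Zy y * L with hκ
  have hκ0 : 0 < κ := by positivity
  have hpt : ∀ t : ℝ, ‖Rn y t‖ ^ 2 * ‖Dn lac N t‖ ≤ Py y / 8 * ‖Rn y t‖ ^ 2 +
      (G.indicator (fun _ => Zy y ^ 2 * (κ / 2)) t + Zy y ^ 2 / (2 * κ) * ‖Dn lac N t‖ ^ 2) := by
    intro t
    have hR := norm_Rn_le y t
    have hR2 : ‖Rn y t‖ ^ 2 ≤ Zy y ^ 2 := pow_le_pow_left₀ (norm_nonneg _) hR 2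
    by_cases ht : t ∈ G
    · rw [Set.indicator_of_mem ht]
      have h3 : ‖Dn lac N t‖ ≤ κ / 2 + 1 / (2 * κ) * ‖Dn lac N t‖ ^ 2 := by
        have h4 : 0 ≤ (κ - ‖Dn lac N t‖) ^ 2 / (2 * κ) := by positivity
        have h5 : (κ - ‖Dn lac N t‖) ^ 2 / (2 * κ) = κ / 2 + 1 / (2 * κ) * ‖Dn lac N t‖ ^ 2 - ‖Dn lac N t‖ := by
          field_simp
          ring
        linarith
      calc ‖Rn y t‖ ^ 2 * ‖Dn lac N t‖ ≤ Zy y ^ 2 * (κ / 2 + 1 / (2 * κ) * ‖Dn lac N t‖ ^ 2) :=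
            mul_le_mul hR2 h3 (norm_nonneg _) (by positivity)
        _ = Zy y ^ 2 * (κ / 2) + Zy y ^ 2 / (2 * κ) * ‖Dn lac N t‖ ^ 2 := by ring
        _ ≤ _ := by
            have : 0 ≤ Py y / 8 * ‖Rn y t‖ ^ 2 := by positivity
            linarith
    · rw [Set.indicator_of_notMem ht, zero_add]
      have h3 : ‖Dn lac N t‖ ≤ Py y / 8 := (not_le.1 ht).le
      have h4 : ‖Rn y t‖ ^ 2 * ‖Dn lac N t‖ ≤ ‖Rn y t‖ ^ 2 * (Py y / 8) := mul_le_mul_of_nonneg_left h3 (by positivity)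
      have h5 : 0 ≤ Zy y ^ 2 / (2 * κ) * ‖Dn lac N t‖ ^ 2 := by positivity
      linarith
  have hcR : Continuous fun t => ‖Rn y t‖ ^ 2 := (Rn_cont y).norm.pow 2
  have hcD : Continuous fun t => ‖Dn lac N t‖ ^ 2 := (Dn_cont lac N).norm.pow 2
  have hcRD : Continuous fun t => ‖Rn y t‖ ^ 2 * ‖Dn lac N t‖ := hcR.mul (Dn_cont lac N).norm
  have hi1 : IntervalIntegrable (fun t => Py y / 8 * ‖Rn y t‖ ^ 2) volume U (U + H) := (hcR.const_mul _).intervalIntegrable _ _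
  have hi3 : IntervalIntegrable (fun t => Zy y ^ 2 / (2 * κ) * ‖Dn lac N t‖ ^ 2) volume U (U + H) :=
    (hcD.const_mul _).intervalIntegrable _ _
  have hi2 : IntervalIntegrable (G.indicator (fun _ => Zy y ^ 2 * (κ / 2))) volume U (U + H) := by
    rw [intervalIntegrable_iff_integrableOn_Ioc_of_le hUH]
    exact (integrableOn_const (by simp)).indicator hGm
  have hmono : ∫ t in U..(U + H), ‖Rn y t‖ ^ 2 * ‖Dn lac N t‖ ≤ ∫ t in U..(U + H), (Py y / 8 * ‖Rn y t‖ ^ 2 +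
      (G.indicator (fun _ => Zy y ^ 2 * (κ / 2)) t + Zy y ^ 2 / (2 * κ) * ‖Dn lac N t‖ ^ 2)) :=
    intervalIntegral.integral_mono_on hUH (hcRD.intervalIntegrable _ _) (hi1.add (hi2.add hi3)) fun t _ => hpt t
  rw [intervalIntegral.integral_add hi1 (hi2.add hi3), intervalIntegral.integral_add hi2 hi3,
    intervalIntegral.integral_const_mul, intervalIntegral.integral_const_mul] at hmono
  have hind : ∫ t in U..(U + H), G.indicator (fun _ => Zy y ^ 2 * (κ / 2)) t ≤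
      Zy y ^ 2 * (κ / 2) * (volume {t : ℝ | U ≤ t ∧ t ≤ U + H ∧ Py y / 8 ≤ ‖Dn lac N t‖}).toReal := by
    rw [intervalIntegral.integral_of_le hUH, integral_indicator_const _ hGm, smul_eq_mul, mul_comm]
    apply mul_le_mul_of_nonneg_left _ (by positivity)
    rw [Measure.real, Measure.restrict_apply hGm]
    apply ENNReal.toReal_mono
    · have hsub : {t : ℝ | U ≤ t ∧ t ≤ U + H ∧ Py y / 8 ≤ ‖Dn lac N t‖} ⊆ Set.Icc U (U + H) := fun t ht => ⟨ht.1, ht.2.1⟩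
      refine ne_top_of_le_ne_top ?_ (measure_mono hsub)
      rw [Real.volume_Icc]
      exact ENNReal.ofReal_ne_top
    · apply measure_mono
      rintro t ⟨ht1, ht2⟩
      exact ⟨ht2.1.le, ht2.2, ht1⟩
  set V : ℝ := (volume {t : ℝ | U ≤ t ∧ t ≤ U + H ∧ Py y / 8 ≤ ‖Dn lac N t‖}).toReal with hV
  have h3 : H * Zy y * Py y / 2 ≤ Py y / 8 * (2 * H * Zy y) + (Zy y ^ 2 * (κ / 2) * V + Zy y ^ 2 / (2 * κ) * (2 * H * L)) := by
    refine hB.trans (hmono.trans ?_)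
    exact add_le_add (mul_le_mul_of_nonneg_left hA (by positivity)) (add_le_add hind (mul_le_mul_of_nonneg_left hC (by positivity)))
  have h4 : Zy y ^ 2 / (2 * κ) * (2 * H * L) = H * Zy y / 8 := by
    rw [hκ]
    field_simp
  have h5 : Zy y ^ 2 * (κ / 2) * V = 4 * Zy y ^ 3 * L * V := by
    rw [hκ]
    ring
  rw [h4, h5] at h3
  have h6 : H * Zy y ≤ H * Zy y * Py y := le_mul_of_one_le_right (by positivity) hP1
  have h7 : H * Zy y ≤ (32 * Zy y ^ 2 * L * V) * Zy y := by nlinarith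
  exact le_of_mul_le_mul_right h7 (by linarith)

end Pool.Agent.Helper66.LV
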