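import Pool.Agent.Helper66.LV.BL
import Mathlib.NumberTheory.Harmonic.Bounds

/-!
# MP_a499ba_nt, large values of the imaginary twists: Paley-Zygmund with the resonator
-/

set_option autoImplicit false

namespace Pool.Agent.Helper66.LV

open MeasureTheory Filter Pool.Agent.IT

theorem norm_lac_le (n : ℕ) : ‖lac n‖ ≤ 1 := by
  unfold lac
  split_ifs
  · simp
  · simp

theorem lac_conj (n : ℕ) : (starRingEnd ℂ) (lac n) = lac n := by
  unfold lac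
  split_ifs <;> simp

theorem lac_sq {n : ℕ} (hn : 1 ≤ n) : lac n * lac n = 1 := by
  unfold lac
  rw [if_neg (by omega), ← pow_add, ← two_mul, pow_mul]
  simp

theorem primorial_ne (y : ℕ) : primorial y ≠ 0 := (primorial_pos y).ne'

theorem one_le_of_dvd {y d : ℕ} (hd : d ∈ (primorial y).divisors) : 1 ≤ d := Nat.pos_of_mem_divisors hd

theorem le_of_dvd {y d : ℕ} (hd : d ∈ (primorial y).divisors) : (d : ℝ) ≤ primorial y := by
  exact_mod_cast Nat.divisor_le hd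

theorem zy_pos (y : ℕ) : 1 ≤ Zy y := by
  unfold Zy
  have : 0 < (primorial y).divisors.card := Finset.card_pos.2 ⟨1, by simp [primorial_ne]⟩
  exact_mod_cast this

theorem py_one (y : ℕ) : 1 ≤ Py y := by
  unfold Py
  refine Finset.prod_induction _ (fun x : ℝ => 1 ≤ x) (fun a b ha hb => one_le_mul_of_one_le_of_one_le ha hb) le_rfl ?_
  intro p _
  have : (0 : ℝ) ≤ (p : ℝ) ^ (-(1 / 2) : ℝ) := Real.rpow_nonneg (Nat.cast_nonneg p) _
  linarith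

theorem norm_Rn_le (y : ℕ) (t : ℝ) : ‖Rn y t‖ ≤ Zy y := by
  unfold Rn Zy
  refine (norm_sum_le _ _).trans ?_
  calc ∑ d ∈ (primorial y).divisors, ‖lac d * nit t d‖ ≤ ∑ d ∈ (primorial y).divisors, (1 : ℝ) := by
        refine Finset.sum_le_sum fun d hd => ?_
        rw [norm_mul, norm_nit (one_le_of_dvd hd), mul_one]
        exact norm_lac_le d
    _ = _ := by simp

theorem Rn_cont (y : ℕ) : Continuous (Rn y) := by
  unfold Rn
  exact continuous_finsetSum _ fun d hd => continuous_const.mul (nit_cont (one_le_of_dvd hd))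

theorem Dn_cont (a : ℕ → ℂ) (N : ℕ) : Continuous (Dn a N) := by
  unfold Dn
  exact continuous_finsetSum _ fun n hn => continuous_const.mul (nit_cont (Finset.mem_Icc.1 hn).1)

theorem rp_le_one {n : ℕ} (hn : 1 ≤ n) : (n : ℝ) ^ (-(1 / 2) : ℝ) ≤ 1 := by
  apply Real.rpow_le_one_of_one_le_of_nonpos
  · exact_mod_cast hn
  · norm_num

theorem rp_nonneg (n : ℕ) : (0 : ℝ) ≤ (n : ℝ) ^ (-(1 / 2) : ℝ) := Real.rpow_nonneg (Nat.cast_nonneg n) _

theorem norm_cf (n : ℕ) (hn : 1 ≤ n) : ‖lac n * (((n : ℝ) ^ (-(1 / 2) : ℝ) : ℝ) : ℂ)‖ ≤ 1 := by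
  rw [norm_mul, Complex.norm_real, Real.norm_eq_abs, abs_of_nonneg (rp_nonneg n)]
  calc ‖lac n‖ * (n : ℝ) ^ (-(1 / 2) : ℝ) ≤ 1 * 1 := mul_le_mul (norm_lac_le n) (rp_le_one hn) (rp_nonneg n) zero_le_one
    _ = 1 := one_mul 1

/-- an integral of squares from `bil` -/
theorem sq_int (f : ℝ → ℂ) (U H : ℝ) :
    (∫ t in U..(U + H), f t * (starRingEnd ℂ) (f t)) = ((∫ t in U..(U + H), ‖f t‖ ^ 2 : ℝ) : ℂ) := by
  rw [← intervalIntegral.integral_ofReal]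
  congr 1
  funext t
  rw [Complex.mul_conj, Complex.normSq_eq_norm_sq]

/-- (A) -/
theorem int_R {y : ℕ} {U H : ℝ} (h1 : 2 * (primorial y : ℝ) * Zy y ≤ H) :
    ∫ t in U..(U + H), ‖Rn y t‖ ^ 2 ≤ 2 * H * Zy y := by
  have hb := bil (primorial y).divisors (primorial y).divisors (fun d => d) (fun d => d) lac lac (M := primorial y) (U := U) (H := H)
    (fun d hd => ⟨one_le_of_dvd hd, le_of_dvd hd⟩) (fun d hd => ⟨one_le_of_dvd hd, le_of_dvd hd⟩)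
  have hZ := zy_pos y
  have hsum : ∑ d ∈ (primorial y).divisors, ‖lac d‖ ≤ Zy y := by
    unfold Zy
    calc ∑ d ∈ (primorial y).divisors, ‖lac d‖ ≤ ∑ d ∈ (primorial y).divisors, (1 : ℝ) :=
          Finset.sum_le_sum fun d _ => norm_lac_le d
      _ = _ := by simp
  have hdiag : ∑ i ∈ (primorial y).divisors, ∑ j ∈ (primorial y).divisors,
      (if i = j then lac i * (starRingEnd ℂ) (lac j) else 0) = (Zy y : ℂ) := by
    have : ∀ i ∈ (primorial y).divisors, ∑ j ∈ (primorial y).divisors,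
        (if i = j then lac i * (starRingEnd ℂ) (lac j) else 0) = 1 := by
      intro i hi
      rw [Finset.sum_ite_eq, if_pos hi, lac_conj, lac_sq (one_le_of_dvd hi)]
    rw [Finset.sum_congr rfl this]
    simp [Zy]
  change ‖(∫ t in U..(U + H), Rn y t * (starRingEnd ℂ) (Rn y t)) - _‖ ≤ _ at hb
  rw [sq_int, hdiag, ← Complex.ofReal_mul, ← Complex.ofReal_sub, Complex.norm_real, Real.norm_eq_abs] at hb
  have h2 := (le_abs_self _).trans hb
  have hP : (0 : ℝ) ≤ primorial y := Nat.cast_nonneg _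
  have h0 : 0 ≤ ∑ d ∈ (primorial y).divisors, ‖lac d‖ := Finset.sum_nonneg fun _ _ => norm_nonneg _
  have h3 : 2 * (primorial y : ℝ) * (∑ i ∈ (primorial y).divisors, ‖lac i‖) * ∑ j ∈ (primorial y).divisors, ‖lac j‖ ≤
      2 * (primorial y : ℝ) * Zy y * Zy y :=
    mul_le_mul (mul_le_mul_of_nonneg_left hsum (by positivity)) hsum h0 (by positivity)
  have h4 : 2 * (primorial y : ℝ) * Zy y * Zy y ≤ H * Zy y := mul_le_mul_of_nonneg_right h1 (by linarith)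
  linarith

/-- (C) -/
theorem int_D {N : ℕ} (hN : 1 ≤ N) {U H : ℝ} (h2 : 2 * (N : ℝ) ^ 3 ≤ H) :
    ∫ t in U..(U + H), ‖Dn lac N t‖ ^ 2 ≤ 2 * H * (1 + Real.log N) := by
  have hb := bil (Finset.Icc 1 N) (Finset.Icc 1 N) (fun n => n) (fun n => n)
    (fun n => lac n * (((n : ℝ) ^ (-(1 / 2) : ℝ) : ℝ) : ℂ)) (fun n => lac n * (((n : ℝ) ^ (-(1 / 2) : ℝ) : ℝ) : ℂ))
    (M := N) (U := U) (H := H)
    (fun n hn => ⟨(Finset.mem_Icc.1 hn).1, by exact_mod_cast (Finset.mem_Icc.1 hn).2⟩)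
    (fun n hn => ⟨(Finset.mem_Icc.1 hn).1, by exact_mod_cast (Finset.mem_Icc.1 hn).2⟩)
  have hN0 : (1 : ℝ) ≤ N := by exact_mod_cast hN
  have hH : 0 ≤ H := le_trans (by positivity) h2
  have hsum : ∑ n ∈ Finset.Icc 1 N, ‖lac n * (((n : ℝ) ^ (-(1 / 2) : ℝ) : ℝ) : ℂ)‖ ≤ N := by
    calc ∑ n ∈ Finset.Icc 1 N, ‖lac n * (((n : ℝ) ^ (-(1 / 2) : ℝ) : ℝ) : ℂ)‖ ≤ ∑ n ∈ Finset.Icc 1 N, (1 : ℝ) :=
          Finset.sum_le_sum fun n hn => norm_cf n (Finset.mem_Icc.1 hn).1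
      _ = _ := by simp
  have hdiag : ∑ i ∈ Finset.Icc 1 N, ∑ j ∈ Finset.Icc 1 N,
      (if i = j then (lac i * (((i : ℝ) ^ (-(1 / 2) : ℝ) : ℝ) : ℂ)) *
        (starRingEnd ℂ) (lac j * (((j : ℝ) ^ (-(1 / 2) : ℝ) : ℝ) : ℂ)) else 0) = ((harmonic N : ℝ) : ℂ) := by
    have : ∀ i ∈ Finset.Icc 1 N, ∑ j ∈ Finset.Icc 1 N,
        (if i = j then (lac i * (((i : ℝ) ^ (-(1 / 2) : ℝ) : ℝ) : ℂ)) *
          (starRingEnd ℂ) (lac j * (((j : ℝ) ^ (-(1 / 2) : ℝ) : ℝ) : ℂ)) else 0) = (((i : ℝ)⁻¹ : ℝ) : ℂ) := by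
      intro i hi
      have hi1 := (Finset.mem_Icc.1 hi).1
      have hi0 : (0 : ℝ) < i := by exact_mod_cast hi1
      rw [Finset.sum_ite_eq, if_pos hi, map_mul, lac_conj, Complex.conj_ofReal]
      calc lac i * (((i : ℝ) ^ (-(1 / 2) : ℝ) : ℝ) : ℂ) * (lac i * (((i : ℝ) ^ (-(1 / 2) : ℝ) : ℝ) : ℂ)) =
            (lac i * lac i) * ((((i : ℝ) ^ (-(1 / 2) : ℝ) * (i : ℝ) ^ (-(1 / 2) : ℝ) : ℝ)) : ℂ) := by push_cast; ring
        _ = (((i : ℝ)⁻¹ : ℝ) : ℂ) := by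
            rw [lac_sq hi1, one_mul, ← Real.rpow_add hi0]
            norm_num
            rw [Real.rpow_neg_one]
            push_cast
            rfl
    rw [Finset.sum_congr rfl this, harmonic_eq_sum_Icc]
    push_cast
    rfl
  change ‖(∫ t in U..(U + H), Dn lac N t * (starRingEnd ℂ) (Dn lac N t)) - _‖ ≤ _ at hb
  rw [sq_int, hdiag, ← Complex.ofReal_mul, ← Complex.ofReal_sub, Complex.norm_real, Real.norm_eq_abs] at hb
  have h3 := (le_abs_self _).trans hb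
  have h0 : 0 ≤ ∑ n ∈ Finset.Icc 1 N, ‖lac n * (((n : ℝ) ^ (-(1 / 2) : ℝ) : ℝ) : ℂ)‖ := Finset.sum_nonneg fun _ _ => norm_nonneg _
  have h4 : 2 * (N : ℝ) * (∑ n ∈ Finset.Icc 1 N, ‖lac n * (((n : ℝ) ^ (-(1 / 2) : ℝ) : ℝ) : ℂ)‖) *
      ∑ n ∈ Finset.Icc 1 N, ‖lac n * (((n : ℝ) ^ (-(1 / 2) : ℝ) : ℝ) : ℂ)‖ ≤ 2 * (N : ℝ) * N * N :=
    mul_le_mul (mul_le_mul_of_nonneg_left hsum (by positivity)) hsum h0 (by positivity)
  have h5 : (harmonic N : ℝ) ≤ 1 + Real.log N := harmonic_le_one_add_log N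
  have h6 : 0 ≤ Real.log N := Real.log_nonneg hN0
  have h7 : H * (harmonic N : ℝ) ≤ H * (1 + Real.log N) := mul_le_mul_of_nonneg_left h5 hH
  have h8 : 2 * (N : ℝ) * N * N ≤ H * (1 + Real.log N) := by
    calc 2 * (N : ℝ) * N * N = 2 * (N : ℝ) ^ 3 := by ring
      _ ≤ H := h2
      _ = H * 1 := (mul_one H).symm
      _ ≤ _ := mul_le_mul_of_nonneg_left (by linarith) hH
  linarith

end Pool.Agent.Helper66.LV
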