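import Pool.Agent.Helper66.LV.Link
import Pool.Agent.Helper56.IT.K2
import Mathlib.Analysis.SpecialFunctions.Log.PosLog

/-!
# MP_a499ba_nt, the imaginary twists: one bound for all sizes `V`
-/

set_option autoImplicit false

namespace Pool.Agent.Helper66.LV

open MeasureTheory Filter Topology Pool.Agent.IT Pool.Agent.DR

/-- the `t ∈ [U, U + H]` with large sums of `μ(n) n^{-it}` and of `λ(n) n^{-it}` at some `n ≤ √H` -/
def Gs (U H K : ℝ) : Set ℝ := {t : ℝ | U ≤ t ∧ t ≤ U + H ∧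
  (∃ n : ℕ, 1 ≤ n ∧ (n : ℝ) ≤ Real.sqrt H ∧ K * Real.sqrt n < ‖Sw muc t n‖) ∧
  ∃ n : ℕ, 1 ≤ n ∧ (n : ℝ) ≤ Real.sqrt H ∧ K * Real.sqrt n < ‖Sw lac t n‖}

theorem isOpen_P (a : ℕ → ℂ) (K M : ℝ) : IsOpen {t : ℝ | ∃ n : ℕ, 1 ≤ n ∧ (n : ℝ) ≤ M ∧ K * Real.sqrt n < ‖Sw a t n‖} := by
  have : {t : ℝ | ∃ n : ℕ, 1 ≤ n ∧ (n : ℝ) ≤ M ∧ K * Real.sqrt n < ‖Sw a t n‖} =
      ⋃ n : ℕ, {t : ℝ | 1 ≤ n ∧ (n : ℝ) ≤ M ∧ K * Real.sqrt n < ‖Sw a t n‖} := by
    ext t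
    simp only [Set.mem_iUnion, Set.mem_ofPred_eq]
  rw [this]
  refine isOpen_iUnion fun n => ?_
  by_cases h : 1 ≤ n ∧ (n : ℝ) ≤ M
  · have h2 : {t : ℝ | 1 ≤ n ∧ (n : ℝ) ≤ M ∧ K * Real.sqrt n < ‖Sw a t n‖} = {t : ℝ | K * Real.sqrt n < ‖Sw a t n‖} := by
      ext t
      simp only [Set.mem_ofPred_eq]
      exact ⟨fun q => q.2.2, fun q => ⟨h.1, h.2, q⟩⟩
    rw [h2]
    exact isOpen_lt continuous_const (continuous_Sw a n).norm
  · have h2 : {t : ℝ | 1 ≤ n ∧ (n : ℝ) ≤ M ∧ K * Real.sqrt n < ‖Sw a t n‖} = ∅ := by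
      ext t
      simp only [Set.mem_ofPred_eq, Set.mem_empty_iff_false, iff_false]
      exact fun q => h ⟨q.1, q.2.1⟩
    rw [h2]
    exact isOpen_empty

theorem meas_Gs (U H K : ℝ) : MeasurableSet (Gs U H K) := by
  have : Gs U H K = Set.Icc U (U + H) ∩
      ({t : ℝ | ∃ n : ℕ, 1 ≤ n ∧ (n : ℝ) ≤ Real.sqrt H ∧ K * Real.sqrt n < ‖Sw muc t n‖} ∩
        {t : ℝ | ∃ n : ℕ, 1 ≤ n ∧ (n : ℝ) ≤ Real.sqrt H ∧ K * Real.sqrt n < ‖Sw lac t n‖}) := by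
    ext t
    constructor
    · rintro ⟨a1, a2, a3, a4⟩
      exact ⟨⟨a1, a2⟩, a3, a4⟩
    · rintro ⟨⟨a1, a2⟩, a3, a4⟩
      exact ⟨a1, a2, a3, a4⟩
  rw [this]
  exact measurableSet_Icc.inter ((isOpen_P muc K _).measurableSet.inter (isOpen_P lac K _).measurableSet)

/-- the deterministic step for a whole set -/
theorem set_step {C1 C2 : ℝ} (h1 : ∀ t : ℝ, 10 ≤ |t| → DgW muc C1 t) (h2 : ∀ t : ℝ, 10 ≤ |t| → DgW lac C2 t)
    {U H V m : ℝ} (hH : 1 ≤ H) (hV : 1 ≤ V) (hm0 : 0 ≤ m)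
    (hvol : ENNReal.ofReal (m + 2 * (2 * Real.pi * (Real.sqrt H + 1) + V)) ≤
      volume (Gs U H (8 * (3 + 2 * max |C1| |C2|) * V))) :
    ∃ A : Set ℝ, MeasurableSet A ∧ A ⊆ Set.Icc U (U + H) ∧ ENNReal.ofReal m ≤ volume A ∧ ∀ t ∈ A, ∀ s : ℝ, |s - t| ≤ V →
      ExW muc (V / (1 + |s - t|)) s ∧ ExW lac (V / (1 + |s - t|)) s := by
  have hpi := Real.pi_pos
  have hpi3 := Real.pi_gt_three
  have hs1 : 1 ≤ Real.sqrt H := by rw [Real.one_le_sqrt]; exact hH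
  set r : ℝ := 2 * Real.pi * (Real.sqrt H + 1) + V with hr
  have hr0 : 0 ≤ r := by positivity
  set G : Set ℝ := Gs U H (8 * (3 + 2 * max |C1| |C2|) * V) with hG
  refine ⟨G \ Set.Icc (-r) r, (meas_Gs _ _ _).diff measurableSet_Icc, ?_, ?_, ?_⟩
  · rintro t ⟨ht, -⟩
    exact ⟨ht.1, ht.2.1⟩
  · have e1 : volume G ≤ volume (G \ Set.Icc (-r) r) + volume (Set.Icc (-r) r) := by
      calc volume G ≤ volume ((G \ Set.Icc (-r) r) ∪ Set.Icc (-r) r) := measure_mono (by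
            intro t ht
            by_cases h : t ∈ Set.Icc (-r) r
            · exact Or.inr h
            · exact Or.inl ⟨ht, h⟩)
        _ ≤ _ := measure_union_le _ _
    rw [Real.volume_Icc, show r - -r = 2 * r by ring] at e1
    have e2 := hvol.trans e1
    rw [ENNReal.ofReal_add hm0 (by positivity)] at e2
    exact (ENNReal.add_le_add_iff_right ENNReal.ofReal_ne_top).1 e2
  · rintro t ⟨ht, htr⟩ s hst
    have htr' : r ≤ |t| := by
      by_contra hc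
      apply htr
      exact Set.mem_Icc.2 (abs_le.1 (not_le.1 hc).le)
    have hs10 : 10 ≤ |s| := by
      have q1 : |t| ≤ |s| + |s - t| := by
        calc |t| = |s - (s - t)| := by congr 1; ring
          _ ≤ |s| + |s - t| := abs_sub _ _
      nlinarith
    obtain ⟨-, -, ⟨n, n1, n2, n3⟩, k, k1, k2, k3⟩ := ht
    constructor
    · refine link hV (h1 s hs10) hst htr' ⟨n, n1, n2, lt_of_le_of_lt ?_ n3⟩
      have := le_max_left |C1| |C2|
      gcongr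
    · refine link hV (h2 s hs10) hst htr' ⟨k, k1, k2, lt_of_le_of_lt ?_ k3⟩
      have := le_max_right |C1| |C2|
      gcongr

theorem exW_mono {a : ℕ → ℂ} {B B' s : ℝ} (h : ExW a B s) (hB : B' ≤ B) : ExW a B' s := by
  intro φ
  obtain ⟨K, hK⟩ := h φ
  refine ⟨K, fun X hX => ?_⟩
  obtain ⟨x, a1, a2, a3⟩ := hK X hX
  exact ⟨x, a1, a2, lt_of_le_of_lt (mul_le_mul_of_nonneg_right hB (Real.sqrt_nonneg _)) a3⟩

/-- small sizes -/
theorem small {C1 C2 : ℝ} (h1 : ∀ t : ℝ, 10 ≤ |t| → DgW muc C1 t) (h2 : ∀ t : ℝ, 10 ≤ |t| → DgW lac C2 t)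
    (hK1 : StmtKLL muc) (hK2 : StmtKLL lac) (e : ℝ) (he : 0 < e) (he4 : e < 1 / 4) :
    ∃ H0 : ℝ, ∀ H : ℝ, H0 ≤ H → ∀ U V : ℝ, 0 < V → V ≤ Real.log (Real.log H) ^ (1 / 4 - e / 2) →
    ∃ A : Set ℝ, MeasurableSet A ∧ A ⊆ Set.Icc U (U + H) ∧ ENNReal.ofReal ((1 - e) * H) ≤ volume A ∧ ∀ t ∈ A, ∀ s : ℝ, |s - t| ≤ V →
      ExW muc (V / (1 + |s - t|)) s ∧ ExW lac (V / (1 + |s - t|)) s := by
  have hpi := Real.pi_pos
  have hpi3 := Real.pi_gt_three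
  have hpi4 := Real.pi_lt_four
  obtain ⟨Ha, ha⟩ := hK1 (e / 4) (e / 8) (by positivity) (by positivity)
  obtain ⟨Hb, hb⟩ := hK2 (e / 4) (e / 8) (by positivity) (by positivity)
  set C0 : ℝ := 8 * (3 + 2 * max |C1| |C2|) with hC0
  have tll : Tendsto (fun H : ℝ => Real.log (Real.log H)) atTop atTop := Real.tendsto_log_atTop.comp Real.tendsto_log_atTop
  have e1 : ∀ᶠ H : ℝ in atTop, C0 ≤ Real.log (Real.log H) ^ (e / 4) :=
    ((tendsto_rpow_atTop (by positivity : 0 < e / 4)).comp tll).eventually_ge_atTop _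
  have e2 : ∀ᶠ H : ℝ in atTop, 1 ≤ Real.log (Real.log H) := tll.eventually_ge_atTop 1
  have e3 : ∀ᶠ H : ℝ in atTop, 120 / e ≤ Real.sqrt H := by
    filter_upwards [eventually_ge_atTop ((120 / e) ^ 2)] with H q
    exact Real.le_sqrt_of_sq_le q
  have e4 : ∀ᶠ H : ℝ in atTop, ‖Real.log (Real.log H)‖ ≤ 1 * ‖H ^ (1 / 2 : ℝ)‖ := by
    have q1 := (isLittleO_log_rpow_atTop (by norm_num : (0 : ℝ) < 1 / 2)).bound (by norm_num : (0 : ℝ) < 1)
    filter_upwards [q1, e2, eventually_ge_atTop (1 : ℝ)] with H q2 q3 q4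
    have q5 : 0 ≤ Real.log H := Real.log_nonneg q4
    have q6 : Real.log (Real.log H) ≤ Real.log H := Real.log_le_self q5
    rw [Real.norm_eq_abs, abs_of_nonneg (by linarith)]
    rw [Real.norm_eq_abs (Real.log H), abs_of_nonneg q5] at q2
    exact q6.trans q2
  obtain ⟨Hc, hc⟩ := Filter.eventually_atTop.1 (((e1.and e2).and (e3.and e4)).and (eventually_ge_atTop (1 : ℝ)))
  refine ⟨max (max Ha Hb) Hc, fun H hH U V hV0 hV => ?_⟩
  have ka := ha H (((le_max_left _ _).trans (le_max_left _ _)).trans hH) U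
  have kb := hb H (((le_max_right _ _).trans (le_max_left _ _)).trans hH) U
  obtain ⟨⟨⟨k1, k2⟩, k3, k4⟩, k5⟩ := hc H ((le_max_right _ _).trans hH)
  set L : ℝ := Real.log (Real.log H) with hL
  have hL0 : 0 < L := by linarith
  have hH0 : 0 < H := by linarith
  set V0 : ℝ := L ^ (1 / 4 - e / 2) with hV0d
  have hV01 : 1 ≤ V0 := Real.one_le_rpow k2 (by linarith)
  have hlev : C0 * V0 ≤ L ^ (1 / 4 - e / 4) := by
    calc C0 * V0 ≤ L ^ (e / 4) * V0 := mul_le_mul_of_nonneg_right k1 (by linarith)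
      _ = L ^ (1 / 4 - e / 4) := by
          rw [hV0d, ← Real.rpow_add hL0]
          congr 1
          ring
  have hs1 : 1 ≤ Real.sqrt H := by rw [Real.one_le_sqrt]; exact k5
  have hHs : Real.sqrt H * Real.sqrt H = H := Real.mul_self_sqrt hH0.le
  have hV0s : V0 ≤ Real.sqrt H := by
    rw [Real.norm_eq_abs, Real.norm_eq_abs, abs_of_pos hL0, abs_of_nonneg (by positivity), one_mul, ← Real.sqrt_eq_rpow] at k4
    refine le_trans ?_ k4
    calc V0 ≤ L ^ (1 : ℝ) := Real.rpow_le_rpow_of_exponent_le k2 (by linarith)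
      _ = L := Real.rpow_one L
  have hr : 2 * (2 * Real.pi * (Real.sqrt H + 1) + V0) ≤ e / 2 * H := by
    have q1 : 2 * (2 * Real.pi * (Real.sqrt H + 1) + V0) ≤ 60 * Real.sqrt H := by nlinarith
    have q2 : 60 * Real.sqrt H ≤ e / 2 * H := by
      rw [div_le_iff₀ he] at k3
      calc 60 * Real.sqrt H = (120 * Real.sqrt H) / 2 := by ring
        _ ≤ ((Real.sqrt H * e) * Real.sqrt H) / 2 := by
            have := mul_le_mul_of_nonneg_right k3 (Real.sqrt_nonneg H)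
            linarith
        _ = e / 2 * (Real.sqrt H * Real.sqrt H) := by ring
        _ = e / 2 * H := by rw [hHs]
    exact q1.trans q2
  -- the volume of the good set
  have hvol : ENNReal.ofReal ((1 - e) * H + 2 * (2 * Real.pi * (Real.sqrt H + 1) + V0)) ≤ volume (Gs U H (C0 * V0)) := by
    have hcov : Set.Icc U (U + H) ⊆ Gs U H (C0 * V0) ∪
        ({t : ℝ | U ≤ t ∧ t ≤ U + H ∧ ∀ n : ℕ, 1 ≤ n → (n : ℝ) ≤ Real.sqrt H → ‖Sw muc t n‖ ≤ L ^ (1 / 4 - e / 4) * Real.sqrt n} ∪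
         {t : ℝ | U ≤ t ∧ t ≤ U + H ∧ ∀ n : ℕ, 1 ≤ n → (n : ℝ) ≤ Real.sqrt H → ‖Sw lac t n‖ ≤ L ^ (1 / 4 - e / 4) * Real.sqrt n}) := by
      rintro t ⟨t1, t2⟩
      by_cases c1 : ∀ n : ℕ, 1 ≤ n → (n : ℝ) ≤ Real.sqrt H → ‖Sw muc t n‖ ≤ L ^ (1 / 4 - e / 4) * Real.sqrt n
      · exact Or.inr (Or.inl ⟨t1, t2, c1⟩)
      by_cases c2 : ∀ n : ℕ, 1 ≤ n → (n : ℝ) ≤ Real.sqrt H → ‖Sw lac t n‖ ≤ L ^ (1 / 4 - e / 4) * Real.sqrt n
      · exact Or.inr (Or.inr ⟨t1, t2, c2⟩)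
      left
      push Not at c1 c2
      obtain ⟨n, n1, n2, n3⟩ := c1
      obtain ⟨k, m1, m2, m3⟩ := c2
      exact ⟨t1, t2, ⟨n, n1, n2, (mul_le_mul_of_nonneg_right hlev (Real.sqrt_nonneg _)).trans_lt n3⟩,
        k, m1, m2, (mul_le_mul_of_nonneg_right hlev (Real.sqrt_nonneg _)).trans_lt m3⟩
    have q1 := (measure_mono hcov).trans ((measure_union_le _ _).trans (add_le_add le_rfl ((measure_union_le _ _).trans (add_le_add ka kb))))
    rw [Real.volume_Icc, add_sub_cancel_left, ← ENNReal.ofReal_add (by positivity) (by positivity)] at q1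
    have q2 : ENNReal.ofReal ((1 - e) * H + 2 * (2 * Real.pi * (Real.sqrt H + 1) + V0)) + ENNReal.ofReal (e / 8 * H + e / 8 * H) ≤
        volume (Gs U H (C0 * V0)) + ENNReal.ofReal (e / 8 * H + e / 8 * H) := by
      rw [← ENNReal.ofReal_add (by nlinarith) (by positivity)]
      refine le_trans (ENNReal.ofReal_le_ofReal ?_) q1
      have : 0 < e * H := by positivity
      linarith
    exact (ENNReal.add_le_add_iff_right ENNReal.ofReal_ne_top).1 q2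
  obtain ⟨A, a1, a2, a3, a4⟩ := set_step h1 h2 k5 hV01 (by nlinarith) hvol
  refine ⟨A, a1, a2, a3, fun t ht s hs => ?_⟩
  obtain ⟨b1, b2⟩ := a4 t ht s (hs.trans hV)
  have hB : V / (1 + |s - t|) ≤ V0 / (1 + |s - t|) := div_le_div_of_nonneg_right hV (by positivity)
  exact ⟨exW_mono b1 hB, exW_mono b2 hB⟩

end Pool.Agent.Helper66.LV
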